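import Pool.Agent.Helper88_PSV.AllZ0
import Pool.Agent.Helper88_HUK.SVA
import Pool.Agent.Helper44_HUK.ADP
import Pool.Agent.Helper27_HUK.IDX
import Pool.Agent.Helper81_HUK.FGI
import Pool.Agent.Helper95_HUK.DGA

/-! PSV: final assembly of N1Z and N4Z. -/

set_option autoImplicit false

namespace Pool.Agent.PSV.H88

open Pool.Agent.HIK Pool.Agent.MTN Pool.Agent.MT100

universe u

theorem adpA : HUK.AdpStmt := HUK.H44.adp HUK.H56.hoi
theorem hcaA : HUK.HcaStmt := hca0 adpA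
theorem svaA : HUK.SvaStmt := HUK.H88.sva hcaA HUK.H94.ctp HUK.H27.idx HUK.H81.fgi HUK.H95.dga
theorem fnaA : HUK.FnaStmt.{u} := fna0 svaA
theorem n1zA : N1zStmt.{u} := n1z0 svaA
theorem n4zA : N4zStmt.{u} := n4z0 svaA

end Pool.Agent.PSV.H88
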