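import Pool.Agent.Helper88_PSV.SegA

/-! PSV / HUK: the constructor of FewC from segments, uniformly in the set. -/

set_option autoImplicit false

namespace Pool.Agent.PSV.H88

open Polynomial NumberField Pool.Agent.MTN Pool.Agent.HUK Pool.Agent.HIK

theorem rpow_mono' {X : ℕ} (hX : 1 ≤ X) {s t : ℝ} (h : s ≤ t) : (X : ℝ) ^ s ≤ (X : ℝ) ^ t :=
  Real.rpow_le_rpow_of_exponent_le (by exact_mod_cast hX) h

/-- FewC from segments, with constants which do not depend on the set -/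
theorem fewMk (hHbc : HbcStmt) (E : Type) [Field E] [CharZero E] (δ0 Z0 : ℕ → ℕ → ℝ) :
    ∃ (Z : ℕ → ℕ → ℝ) (Z' : (k : Type) → [Field k] → [NumberField k] → ℕ → ℝ),
      ∀ (S : Set E) (D : ℝ), 1 ≤ D →
      (∀ m A X : ℕ, 1 ≤ X → ∀ x ∈ Ap E m (X ^ A),
        (Nat.card {κ : ℕ // κ < X ∧ x + κ ∈ S} : ℝ) ≤ Z0 m A * D * (X : ℝ) ^ (1 - δ0 m A)) →
      FewC S (fun m A => min (δ0 m A) (min (δ0 m ((2 * A + 3) * m)) (δ0 m (3 * m))))
        (fun m A => Z m A * D) (fun k _ _ A => Z' k A * D) := by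
  choose Cc hCc using cntQ hHbc E
  have hk : ∀ (k : Type) [Field k] [NumberField k], ∃ C₁ : ℕ, ∀ (E : Type) [Field E] [CharZero E]
      (S : Set E) (σ : k →+* E) (A : ℕ) (D δ : ℝ), 1 ≤ D →
      (∀ X : ℕ, 1 ≤ X → ∀ x ∈ Ap E (Module.finrank ℚ k)
        (X ^ ((2 * A + 3) * Module.finrank ℚ k)),
        (Nat.card {κ : ℕ // κ < X ∧ x + κ ∈ S} : ℝ) ≤ D * (X : ℝ) ^ (1 - δ)) →
      ∀ X : ℕ, 1 ≤ X →
        (Nat.card {p : 𝓞 k × ℕ // 1 ≤ p.2 ∧ p.2 ≤ X ^ A ∧ house (p.1 : k) ≤ p.2 * X ∧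
          σ p.1 / (p.2 : E) ∈ S} : ℝ) ≤
        C₁ * D * (X : ℝ) ^ ((Module.finrank ℚ k : ℝ) + A * (Module.finrank ℚ k + 1) - δ) :=
    fun k _ _ => frcQ k
  refine ⟨fun m A => max (Z0 m A) 0 + Cc m * max (Z0 m (3 * m)) 1, fun k _ _ A =>
    ((Classical.choose (hk k) : ℕ) : ℝ) *
      max (Z0 (Module.finrank ℚ k) ((2 * A + 3) * Module.finrank ℚ k)) 1, ?_⟩
  intro S D hD hS
  have hIA : ∀ (m B : ℕ) (x : E), x ∈ Ip E m B → x ∈ Ap E m B := by
    rintro m B x ⟨p, hp, hd, hc, hz⟩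
    exact ⟨p, hp.ne_zero, hd, hc, hz⟩
  have hD0 : (0 : ℝ) ≤ D := by linarith
  have hup : ∀ m A X : ℕ, 1 ≤ X → ∀ x ∈ Ap E m (X ^ A),
      (Nat.card {κ : ℕ // κ < X ∧ x + κ ∈ S} : ℝ) ≤
        max (Z0 m A) 1 * D * (X : ℝ) ^ (1 - δ0 m A) := by
    intro m A X hX x hx
    refine (hS m A X hX x hx).trans ?_
    refine mul_le_mul_of_nonneg_right ?_ (Real.rpow_nonneg (Nat.cast_nonneg _) _)
    exact mul_le_mul_of_nonneg_right (le_max_left _ _) hD0
  have h1D : ∀ z : ℝ, (1 : ℝ) ≤ max z 1 * D := fun z =>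
    one_le_mul_of_one_le_of_one_le (le_max_right _ _) hD
  refine ⟨?_, ?_, ?_⟩
  · intro m A X hX x hx
    refine (hS m A X hX x hx).trans ?_
    refine mul_le_mul ?_ (rpow_mono' hX ?_) (Real.rpow_nonneg (Nat.cast_nonneg _) _) ?_
    · refine mul_le_mul_of_nonneg_right ?_ hD0
      have h2 : (0 : ℝ) ≤ Cc m * max (Z0 m (3 * m)) 1 :=
        mul_nonneg (Nat.cast_nonneg _) (le_trans zero_le_one (le_max_right _ _))
      exact (le_max_left _ _).trans (le_add_of_nonneg_right h2)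
    · have h2 : min (δ0 m A) (min (δ0 m ((2 * A + 3) * m)) (δ0 m (3 * m))) ≤ δ0 m A :=
        min_le_left _ _
      linarith
    · have h2 : (0 : ℝ) ≤ Cc m * max (Z0 m (3 * m)) 1 :=
        mul_nonneg (Nat.cast_nonneg _) (le_trans zero_le_one (le_max_right _ _))
      exact mul_nonneg (add_nonneg (le_max_right _ _) h2) hD0
  · intro k _ _ σ A X hX
    have h3 := Classical.choose_spec (hk k) E S σ A _
      (δ0 (Module.finrank ℚ k) ((2 * A + 3) * Module.finrank ℚ k)) (h1D _)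
      (fun Y hY x hx => hup _ _ Y hY x hx) X hX
    refine h3.trans ?_
    rw [← mul_assoc]
    refine mul_le_mul_of_nonneg_left (rpow_mono' hX ?_) ?_
    · have h4 : min (δ0 (Module.finrank ℚ k) A)
          (min (δ0 (Module.finrank ℚ k) ((2 * A + 3) * Module.finrank ℚ k))
            (δ0 (Module.finrank ℚ k) (3 * Module.finrank ℚ k))) ≤
          δ0 (Module.finrank ℚ k) ((2 * A + 3) * Module.finrank ℚ k) :=
        (min_le_right _ _).trans (min_le_left _ _)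
      linarith
    · exact mul_nonneg (mul_nonneg (Nat.cast_nonneg _)
        (le_trans zero_le_one (le_max_right _ _))) hD0
  · intro m X hX
    have h3 := hCc m S _ (δ0 m (3 * m)) (h1D (Z0 m (3 * m)))
      (fun Y hY x hx => hup m (3 * m) Y hY x (hIA _ _ _ hx)) X hX
    refine h3.trans ?_
    rw [← mul_assoc]
    refine mul_le_mul ?_ (rpow_mono' hX ?_) (Real.rpow_nonneg (Nat.cast_nonneg _) _) ?_
    · exact mul_le_mul_of_nonneg_right (le_add_of_nonneg_left (le_max_right _ _)) hD0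
    · have h4 : min (δ0 m 0) (min (δ0 m ((2 * 0 + 3) * m)) (δ0 m (3 * m))) ≤ δ0 m (3 * m) :=
        (min_le_right _ _).trans (min_le_right _ _)
      linarith
    · have h2 : (0 : ℝ) ≤ Cc m * max (Z0 m (3 * m)) 1 :=
        mul_nonneg (Nat.cast_nonneg _) (le_trans zero_le_one (le_max_right _ _))
      exact mul_nonneg (add_nonneg (le_max_right _ _) h2) hD0

end Pool.Agent.PSV.H88
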