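import Pool.Agent.PSV.StmtsS
import Pool.Agent.PSV.StmtsG
import Pool.Agent.Helper97_MTD.Bas

/-! PSV, row BAE: the solution near infinity with an explicit radius (edit of Helper97_MTD/Bas.lean). -/

set_option autoImplicit false

namespace Pool.Agent.PSV.H88

open Matrix Polynomial Pool.Agent.MT100 Pool.Agent.MT100G Pool.Agent.MT100A Pool.Agent.MT100D
  Pool.Agent.Helper78_MT
open Pool.Agent.MT100G.H43 Pool.Agent.MT100D.H97

theorem zC_aeval (q : ℤ[X]) (x : ℂ) : zC q x = aeval x (zq q) := by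
  unfold zC zq
  rw [Polynomial.aeval_def, Polynomial.eval₂_map, Polynomial.eval_map]
  congr 1

theorem bae (ace : AceStmt) (val : ValStmt) : BaeStmt := by
  intro d _ _ n B0 F hF
  obtain ⟨H, K, N, dl, q, B, hS⟩ := F
  have hB2 : 2 ≤ B0 := hF.two
  have hB1 : (2 : ℝ) ≤ B0 := by exact_mod_cast hB2
  have hn0 : (0 : ℝ) ≤ n := Nat.cast_nonneg n
  have hR : ((2 * (n + 1) * B0 : ℕ) : ℝ) = 2 * ((n : ℝ) + 1) * B0 := by push_cast; ring
  obtain ⟨δ, hδe⟩ : ∃ δ : ℝ, δ = 1 / (2 * ((n : ℝ) + 1) * B0) := ⟨_, rfl⟩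
  have hδ : 0 < δ := by rw [hδe]; positivity
  have hq4 : ∀ x : ℂ, x ≠ 0 → ‖x‖ * (((n : ℝ) + 1) * B0) < 1 → zC q x ≠ 0 := by
    intro x hx hxn
    rw [zC_aeval]
    exact val.2.2.2 n B0 q hS.q0 hF.hq x hx hxn
  have hqx : ∀ x : ℂ, ‖x‖ < δ → x ≠ 0 → zC q x ≠ 0 := by
    intro x hx hx0
    refine hq4 x hx0 ?_
    rw [hδe, lt_div_iff₀ (by positivity)] at hx
    have h1 : 0 ≤ ‖x‖ * (((n : ℝ) + 1) * B0) := by positivity
    nlinarith
  have hδl : ∀ x : ℂ, ‖x‖ < δ → ‖x‖ < 1 / (2 * (B0 : ℝ)) := by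
    intro x hx
    refine lt_of_lt_of_le hx ?_
    rw [hδe]
    refine one_div_le_one_div_of_le (by positivity) ?_
    nlinarith
  have hHx : ∀ i j (x : ℂ), ‖x‖ < δ → AC (H i j) x ∧ AC (dv (H i j)) x ∧
      HasDerivAt (evC (H i j)) (evC (dv (H i j)) x) x := fun i j x hx =>
    ace B0 (H i j) (by omega) (hF.gH i j) x (hδl x hx)
  have hKx : ∀ i j (x : ℂ), ‖x‖ < δ → AC (K i j) x ∧ AC (dv (K i j)) x ∧
      HasDerivAt (evC (K i j)) (evC (dv (K i j)) x) x := fun i j x hx =>
    ace B0 (K i j) (by omega) (hF.gK i j) x (hδl x hx)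
  have hgood : ∀ w : ℂ, 1 / δ < w.re → ‖w⁻¹‖ < δ ∧ w ≠ 0 ∧ 0 < w.re := by
    intro w hw
    have h0 : 0 < w.re := lt_trans (by positivity) hw
    have hw0 : w ≠ 0 := by
      intro h
      rw [h] at h0
      simp at h0
    have hn : 1 / δ < ‖w‖ := lt_of_lt_of_le hw (Complex.re_le_norm w)
    refine ⟨?_, hw0, h0⟩
    rw [norm_inv, inv_lt_comm₀ (norm_pos_iff.mpr hw0) hδ, ← one_div]
    exact hn
  have hRδ : ((2 * (n + 1) * B0 : ℕ) : ℝ) = 1 / δ := by
    rw [hR, hδe, one_div_one_div]
  have h2nd : ∀ w : ℂ, w = 0 ∨ zC q w⁻¹ = 0 → -(((n + 1) * B0 : ℕ) : ℝ) ≤ w.re := by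
    intro w hw
    have hB0 : (0 : ℝ) ≤ (((n + 1) * B0 : ℕ) : ℝ) := Nat.cast_nonneg _
    rcases hw with rfl | hw
    · simp only [Complex.zero_re]
      linarith
    · by_contra hcon
      push Not at hcon
      have hw0 : w ≠ 0 := by
        rintro rfl
        simp only [Complex.zero_re] at hcon
        linarith
      have h1 : (((n + 1) * B0 : ℕ) : ℝ) < ‖w‖ := by
        have := Complex.abs_re_le_norm w
        have h3 := neg_abs_le w.re
        linarith
      refine hq4 w⁻¹ (inv_ne_zero hw0) ?_ hw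
      rw [norm_inv, inv_mul_lt_iff₀ (norm_pos_iff.mpr hw0), mul_one]
      push_cast at h1
      exact h1
  refine ⟨?_, h2nd⟩
  rw [hRδ]
  refine ⟨by positivity, ?_⟩
  intro c ρ hρ hsub
  show SolOn q B c ρ (YD H N dl)
  have hd : ∀ w ∈ Metric.ball c ρ, IsUnit (YD H N dl w).det := by
    intro w hw
    obtain ⟨h1, h2, h3⟩ := hgood w (hsub hw)
    have hA : ∀ i j, AC (H i j) w⁻¹ := fun i j =>
      (hHx i j w⁻¹ h1).1
    have hA' : ∀ i j, AC (K i j) w⁻¹ := fun i j =>
      (hKx i j w⁻¹ h1).1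
    have hHK : H.map (fun f => evC f w⁻¹) * K.map (fun f => evC f w⁻¹) = 1 := by
      rw [← (ac_mmul hA hA').2, hS.inv]
      ext i j
      rw [Matrix.map_apply, Matrix.one_apply, Matrix.one_apply]
      by_cases hij : i = j
      · rw [if_pos hij, if_pos hij]
        have := (ac_int 1 w⁻¹).2
        rwa [Int.cast_one, Int.cast_one] at this
      · rw [if_neg hij, if_neg hij]
        have := (ac_int 0 w⁻¹).2
        rwa [Int.cast_zero, Int.cast_zero] at this
    unfold YD YH
    rw [Matrix.det_mul, Matrix.det_mul]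
    refine IsUnit.mul (IsUnit.mul ?_ ?_) ?_
    · have := congrArg Matrix.det hHK
      rw [Matrix.det_mul, Matrix.det_one] at this
      exact IsUnit.of_mul_eq_one _ this
    · have := congrArg Matrix.det (eN_mul_neg N hS.nil (-Complex.log w))
      rw [Matrix.det_mul, Matrix.det_one] at this
      exact IsUnit.of_mul_eq_one _ this
    · unfold ed
      rw [Matrix.det_diagonal, isUnit_iff_ne_zero]
      exact Finset.prod_ne_zero_iff.2 fun i _ => Complex.exp_ne_zero _
  refine ⟨hρ, fun w hw => ?_, hd, fun w hw i j => ?_⟩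
  · obtain ⟨h1, h2, h3⟩ := hgood w (hsub hw)
    exact ⟨h2, hqx _ h1 (inv_ne_zero h2)⟩
  · obtain ⟨h1, h2, h3⟩ := hgood w (hsub hw)
    have hq1 : zC q w⁻¹ ≠ 0 := hqx _ h1 (inv_ne_zero h2)
    have hA := fun i j => hHx i j w⁻¹ h1
    have hslit : w ∈ Complex.slitPlane := Or.inl h3
    have hlog : HasDerivAt (fun x => -Complex.log x) (-w⁻¹) w :=
      (Complex.hasDerivAt_log hslit).neg
    have hinv : HasDerivAt (fun x : ℂ => x⁻¹) (-(w ^ 2)⁻¹) w := hasDerivAt_inv h2
    have hD : HasDerivAt (fun x => YH H N x i j)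
        (∑ k, (evC (dv (H i k)) w⁻¹ * (-(w ^ 2)⁻¹) * eN N (-Complex.log w) k j +
          evC (H i k) w⁻¹ *
            ((N.map (fun y : ℤ => (y : ℂ)) * eN N (-Complex.log w)) k j * (-w⁻¹)))) w := by
      have he : (fun x => YH H N x i j) =
          fun x => ∑ k, evC (H i k) x⁻¹ * eN N (-Complex.log x) k j := by
        funext x
        unfold YH
        rw [Matrix.mul_apply]
        rfl
      rw [he]
      refine HasDerivAt.fun_sum fun k _ => ?_
      refine HasDerivAt.mul ?_ ?_
      · exact HasDerivAt.comp w (hA i k).2.2 hinv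
      · exact HasDerivAt.comp w (eN_deriv N hS.nil (-Complex.log w) k j) hlog
    have hE : HasDerivAt (fun x => Complex.exp ((dl j : ℂ) * -Complex.log x))
        (Complex.exp ((dl j : ℂ) * -Complex.log w) * ((dl j : ℂ) * -w⁻¹)) w :=
      (hlog.const_mul (dl j : ℂ)).cexp
    have hDE := hD.mul hE
    have he : (fun x => YD H N dl x i j) =
        (fun x => YH H N x i j) * fun x => Complex.exp ((dl j : ℂ) * -Complex.log x) := by
      funext x
      rw [yd_entry]
      rfl
    rw [he]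
    refine hDE.congr_deriv ?_
    -- the differential equation
    set Em := eN N (-Complex.log w) with hEm
    set Nm : Matrix d d ℂ := N.map (fun y : ℤ => (y : ℂ)) with hNm
    set Dm : Matrix d d ℂ := diagonal fun i => ((dl i : ℚ) : ℂ) with hDm
    set Hm : Matrix d d ℂ := H.map (fun f => evC f w⁻¹) with hHm
    set Hd : Matrix d d ℂ := H.map (fun f => evC (dv f) w⁻¹) with hHd
    set Bm : Matrix d d ℂ := B.map (fun p => zC p w⁻¹) with hBm
    have hode : (zC q w⁻¹ * w⁻¹) • Hd = Bm * Hm - zC q w⁻¹ • (Hm * (Nm + Dm)) := by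
      ext a b
      have h4 := congrArg (fun M : Matrix d d (PowerSeries ℚ) => evC (M a b) w⁻¹) hS.ode
      simp only [Matrix.smul_apply, Matrix.sub_apply, Matrix.map_apply, smul_eq_mul] at h4
      have hBH := ac_mmul (A := B.map zp) (B := H) (x := w⁻¹)
        (fun i j => (ac_zp (B i j) w⁻¹).1) (fun i j => (hA i j).1)
      have hHN := ac_mmul (A := H) (B := (AA N dl).map (fun x => PowerSeries.C x)) (x := w⁻¹)
        (fun i j => (hA i j).1) (fun i j => (ac_C (AA N dl i j) w⁻¹).1)
      have hqX := ac_mul (ac_zp q w⁻¹).1 (ac_X w⁻¹).1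
      have h5 := ac_mul hqX.1 (hA a b).2.1
      have h6 := ac_mul (ac_zp q w⁻¹).1 (hHN.1 a b)
      have h7 := ac_sub (hBH.1 a b) h6.1
      rw [h5.2, hqX.2, (ac_zp q w⁻¹).2, (ac_X w⁻¹).2, h7.2, h6.2, (ac_zp q w⁻¹).2] at h4
      have h8 : evC ((B.map zp * H) a b) w⁻¹ = (Bm * Hm) a b := by
        have := congrFun (congrFun hBH.2 a) b
        rw [Matrix.map_apply] at this
        rw [this]
        have h9 : (B.map zp).map (fun f => evC f w⁻¹) = Bm := by
          ext a b
          simp only [Matrix.map_apply, hBm]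
          exact (ac_zp _ _).2
        rw [h9]
      have h9 : evC ((H * (AA N dl).map (fun x => PowerSeries.C x)) a b) w⁻¹ =
          (Hm * (Nm + Dm)) a b := by
        have := congrFun (congrFun hHN.2 a) b
        rw [Matrix.map_apply] at this
        rw [this]
        have h9 : ((AA N dl).map (fun x => PowerSeries.C x)).map (fun f => evC f w⁻¹) =
            Nm + Dm := by
          ext a b
          rw [Matrix.map_apply, Matrix.map_apply, (ac_C _ _).2]
          unfold AA
          rw [Matrix.add_apply, Matrix.add_apply, Matrix.map_apply, hNm, hDm, Matrix.map_apply,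
            Matrix.diagonal_apply, Matrix.diagonal_apply]
          by_cases hab : a = b
          · rw [if_pos hab, if_pos hab]
            push_cast
            ring
          · rw [if_neg hab, if_neg hab]
            push_cast
            ring
        rw [h9]
      rw [h8, h9] at h4
      simp only [Matrix.smul_apply, Matrix.sub_apply, smul_eq_mul, hHd, Matrix.map_apply]
      exact h4
    have hsum : (∑ k, (evC (dv (H i k)) w⁻¹ * (-(w ^ 2)⁻¹) * Em k j +
          evC (H i k) w⁻¹ * ((Nm * Em) k j * (-w⁻¹)))) =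
        (-(w ^ 2)⁻¹) * (Hd * Em) i j + (-w⁻¹) * (Hm * (Nm * Em)) i j := by
      rw [Finset.sum_add_distrib, Matrix.mul_apply, Matrix.mul_apply, Finset.mul_sum,
        Finset.mul_sum]
      congr 1
      · refine Finset.sum_congr rfl fun k _ => ?_
        simp only [hHd, Matrix.map_apply]
        ring
      · refine Finset.sum_congr rfl fun k _ => ?_
        simp only [hHm, Matrix.map_apply]
        ring
    rw [hsum]
    have hY : YH H N w = Hm * Em := rfl
    have hDE' : Dm * Em = Em * Dm := diag_eN hS.com (-Complex.log w)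
    have h20 : (Hm * ((Nm + Dm) * Em)) i j =
        (Hm * (Nm * Em)) i j + (Hm * Em) i j * (dl j : ℂ) := by
      rw [Matrix.add_mul, Matrix.mul_add, Matrix.add_apply, hDE', ← Matrix.mul_assoc Hm Em Dm,
        hDm, Matrix.mul_diagonal]
    have h10 : w⁻¹ * (Hd * Em) i j =
        (zC q w⁻¹)⁻¹ * (Bm * (Hm * Em)) i j - (Hm * ((Nm + Dm) * Em)) i j := by
      have h11 := congrArg (fun M : Matrix d d ℂ => (M * Em) i j) hode
      simp only [Matrix.smul_mul, Matrix.sub_mul, Matrix.smul_apply, Matrix.sub_apply,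
        smul_eq_mul, Matrix.mul_assoc] at h11
      have key : ∀ (Q x a b c : ℂ), Q ≠ 0 → Q * x * a = b - Q * c → x * a = Q⁻¹ * b - c := by
        intro Q x a b c hQ h
        have : b = Q * x * a + Q * c := by rw [h]; ring
        rw [this]
        field_simp
        ring
      exact key _ _ _ _ _ hq1 h11
    have h13 : (w ^ 2)⁻¹ * (Hd * Em) i j = w⁻¹ * (w⁻¹ * (Hd * Em) i j) := by
      field_simp
    have h14 : (Bm * YD H N dl w) i j = (Bm * (Hm * Em)) i j *
        Complex.exp ((dl j : ℂ) * -Complex.log w) := by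
      unfold YD ed
      rw [hY, ← Matrix.mul_assoc, Matrix.mul_diagonal]
    rw [h14, hY, neg_mul, h13, h10, h20, mul_inv]
    ring

end Pool.Agent.PSV.H88
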