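import Pool.Agent.PSV.StmtsF
import Pool.Agent.HUK.StmtsA
import Pool.Agent.PSV.FewC
import Pool.Agent.Helper88_PSV.FewMk

/-!
# Squad PSV: the final form of N1 (uniform in the family, power saving, all number fields at once)
-/

set_option autoImplicit false

namespace Pool.Agent.PSV.H88

open Matrix Polynomial NumberField Pool.Agent.MT100 Pool.Agent.MT100G Pool.Agent.MT100A
  Pool.Agent.MT100D Pool.Agent.Helper78_MT Pool.Agent.MTL Pool.Agent.MTN Pool.Agent.MTN.H53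
  Pool.Agent.HIK Pool.Agent.PSV

universe u

/-- the bound of Cauchy for all algebraic numbers -/
theorem cauA (E : Type) [Field E] (e : E →+* ℂ) (m B : ℕ) (a : E) (ha : a ∈ HUK.Ap E m B) :
    ‖e a‖ ≤ B + 1 := by
  obtain ⟨p, hp, _, hB, hz⟩ := ha
  have h1 : aeval (e a) p = 0 := by
    have h2 := congrArg e hz
    rw [map_zero] at h2
    rw [← h2]
    rw [aeval_def, aeval_def, hom_eval₂]
    congr 1
    exact Subsingleton.elim _ _
  set q : ℂ[X] := p.map (Int.castRingHom ℂ) with hq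
  have hq0 : q ≠ 0 := by
    rw [hq]
    exact (Polynomial.map_ne_zero_iff (RingHom.injective_int _)).mpr hp
  have hroot : q.IsRoot (e a) := by
    rw [IsRoot.def, hq, eval_map]
    rw [aeval_def] at h1
    exact h1
  have h3 := hroot.norm_lt_cauchyBound hq0
  have hlc : (1 : ℝ) ≤ ‖q.leadingCoeff‖ := by
    rw [hq, leadingCoeff_map_of_injective (RingHom.injective_int _), eq_intCast,
      Complex.norm_intCast]
    have h5 : p.leadingCoeff ≠ 0 := leadingCoeff_ne_zero.2 hp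
    exact_mod_cast Int.one_le_abs h5
  have h4 : cauchyBound q ≤ (B : NNReal) + 1 := by
    unfold cauchyBound
    gcongr
    refine (div_le_self (by positivity) (by exact_mod_cast hlc)).trans ?_
    refine Finset.sup_le ?_
    intro i _
    rw [hq, coeff_map]
    have h5 := hB i
    have h6 : ‖(Int.castRingHom ℂ) (p.coeff i)‖ ≤ (B : ℝ) := by
      rw [eq_intCast, Complex.norm_intCast]
      exact_mod_cast h5
    exact_mod_cast h6
  have h7 : ‖e a‖₊ ≤ (B : NNReal) + 1 := (h3.trans_le h4).le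
  exact_mod_cast h7

/-- N1Z: the uniform theorem with power saving, all number fields at once. -/
def N1zStmt : Prop :=
  (∀ (d : Type) [Fintype d] [DecidableEq d] (F : Family d), ∃ n B : ℕ,
    Siz n B F.H F.K F.N F.δ F.q F.B) ∧
  ∀ n : ℕ, ∃ (c : ℕ) (a : ℕ → ℕ → ℕ) (δ Z : ℕ → ℕ → ℝ)
    (Z' : (k : Type) → [Field k] → [NumberField k] → ℕ → ℝ), (∀ m A, 0 < δ m A) ∧
    ∀ (d : Type) [Fintype d] [DecidableEq d] (F : Family d) (B : ℕ),
    Siz n B F.H F.K F.N F.δ F.q F.B →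
    ∀ (w : ℕ) (lev : d → ℕ), 1 ≤ w → ∀ P : Matrix d d ℂ, IsUnit P.det → F.IntM P →
      ∃ S : Set ℂ,
        (∀ (m A K : ℕ), ∀ x ∈ Pts m A, ((B * (K + 1) : ℕ) : ℝ) ^ a m A ≤ ‖x‖ →
          Nat.card {κ : ℕ // κ < K ∧ x - κ ∈ S} ≤ B ^ c) ∧
        FewC S δ (fun m A => Z m A * (B : ℝ) ^ c) (fun k _ _ A => Z' k A * (B : ℝ) ^ c) ∧
        (∀ x : ℂ, x ∉ S → ∀ (E : Matrix d d ℚ) (V : ℕ → Submodule ℂ (d → ℂ)),
          FibreC F lev P w x E V →
          (∀ (K : Type u) [Field K] [CharZero K], mtGroup w V K = GenM (F.Mo P) w V K) ∧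
          ∀ R : ℝ, (B : ℝ) ^ c ≤ R → R < ‖x‖ → FixedC F lev P w R →
            ∀ y : ℂ, R < ‖y‖ → ∀ (E' : Matrix d d ℚ) (V' : ℕ → Submodule ℂ (d → ℂ)),
            PolHodge w E' V' → F.HasFil lev P y V' →
            ∀ (K : Type u) [Field K] [CharZero K], mtGroup w V' K ⊆ mtGroup w V K) ∧
        ∀ ρ : (ℓ : ℕ) → [Fact ℓ.Prime] → GT →* GL d ℚ_[ℓ],
          (∀ (ℓ : ℕ) [Fact ℓ.Prime], Continuous (ρ ℓ)) →
          ∃ (T : Set QB) (N : ℕ → ℕ),
            (∃ (Y : ℕ → ℕ → ℝ) (Y' : (k : Type) → [Field k] → [NumberField k] → ℕ → ℝ),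
              FewC T (fun _ _ => 1 / 5) Y Y') ∧
            ∀ (ℓ : ℕ) [Fact ℓ.Prime] (x : QB), x ∉ T → (∃ e : QB →+* ℂ, (N ℓ : ℝ) ≤ ‖e x‖) →
            ∀ ρx : Stab x →* GL d ℚ_[ℓ], SpecializesAt (ρ ℓ) x ρx →
            ∀ (K : Type u) [Field K] [CharZero K] [Algebra ℚ_[ℓ] K],
              monodromy ρx K = monodromy (ρ ℓ) K ∧
              ∀ e : QB →+* ℂ, e x ∉ S →
                ∀ (E : Matrix d d ℚ) (V : ℕ → Submodule ℂ (d → ℂ)),
                FibreC F lev P w (e x) E V →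
                (monodromy ρx K = mtGroup w V K ↔ monodromy (ρ ℓ) K = GenM (F.Mo P) w V K) ∧
                ∀ R : ℝ, (B : ℝ) ^ c ≤ R → R < ‖e x‖ → FixedC F lev P w R →
                  ∀ y : ℂ, R < ‖y‖ → y ∉ S →
                  ∀ (E' : Matrix d d ℚ) (V' : ℕ → Submodule ℂ (d → ℂ)), FibreC F lev P w y E' V' →
                  (monodromy ρx K = mtGroup w V K ↔ monodromy (ρ ℓ) K = mtGroup w V' K)

theorem n1z (hM : MaqStmt.{u}) (hF : FpqStmt.{u}) (hZ : SzmStmt)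
    (hL : HUK.FnaStmt.{u}) (hSpd : HUK.SdaStmt) (hHbc : HUK.HbcStmt) : N1zStmt.{u} := by
  classical
  refine ⟨hZ.2, fun n => ?_⟩
  obtain ⟨c1, a1, h1⟩ := hM n
  obtain ⟨c2, h2⟩ := hF n
  -- the constants of the segments
  choose C0 hC0 using fun m A : ℕ => segA m A (a1 m (2 * (m + A) + 1) + 1)
    (Nat.succ_le_succ (Nat.zero_le _))
  obtain ⟨δ0, hδ0⟩ : ∃ δ0 : ℕ → ℕ → ℝ, δ0 = fun m A =>
      1 / (2 * ((a1 m (2 * (m + A) + 1) + 1 : ℕ) : ℝ)) := ⟨_, rfl⟩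
  have hδ0' : ∀ m A, 0 < δ0 m A := fun m A => by rw [hδ0]; positivity
  obtain ⟨Z, Z', hZZ⟩ := fewMk hHbc ℂ δ0 (fun m A => (C0 m A : ℝ))
  refine ⟨c1 + 1 + c2, fun m A => a1 m A + 1,
    fun m A => min (δ0 m A) (min (δ0 m ((2 * A + 3) * m)) (δ0 m (3 * m))), Z, Z', ?_, ?_⟩
  rotate_left 1
  · intro d _ _ F B hFB w lev hw P hP hInt
    have hB2 : 2 ≤ B := hFB.two
    have hB1 : 1 ≤ B := by omega
    have hBR : (1 : ℝ) ≤ B := by exact_mod_cast hB1
    obtain ⟨S, hwin, hS⟩ := h1 d F B hFB w lev hw P hP hInt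
    have hcmp : (B : ℝ) ^ c2 ≤ (B : ℝ) ^ (c1 + 1 + c2) := pow_le_pow_right₀ hBR (by omega)
    have hwin' : ∀ (m A K : ℕ), ∀ x ∈ Pts m A, ((B * (K + 1) : ℕ) : ℝ) ^ (a1 m A + 1) ≤ ‖x‖ →
        Nat.card {κ : ℕ // κ < K ∧ x - κ ∈ S} ≤ B ^ c1 := by
      intro m A K x hx hxn
      refine hwin m A K x hx (le_trans ?_ hxn)
      have h3 : (1 : ℝ) ≤ ((B * (K + 1) : ℕ) : ℝ) := by
        have h4 : 1 ≤ B * (K + 1) := Nat.mul_pos hB1 (Nat.succ_pos K)
        exact_mod_cast h4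
      exact pow_le_pow_right₀ h3 (Nat.le_succ _)
    have hside : ∀ x : ℂ, x ∉ S → HSide.{u} F lev P w ((B : ℝ) ^ (c1 + 1 + c2)) x := by
      intro x hx E V hV
      refine ⟨hS x hx E V hV, fun R hR hRx hfix y hy E' V' hV' hFil' => ?_⟩
      exact h2 d F B hFB w lev hw P R hP hInt (hcmp.trans hR) hfix x y hRx hy E E' V V' hV
        (hS x hx E V hV) hV' hFil'
    refine ⟨S, ?_, ?_, hside, ?_⟩
    · intro m A K x hx hxn
      exact (hwin' m A K x hx hxn).trans (Nat.pow_le_pow_right hB1 (by omega))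
    · refine hZZ S ((B : ℝ) ^ (c1 + 1 + c2)) (one_le_pow₀ hBR) fun m A X hX x hx => ?_
      have h3 := hC0 m A S (B ^ c1) B hB1 (Nat.one_le_pow _ _ hB1)
        (fun K y hy hyn => hwin' _ _ K y hy hyn) X hX x hx
      refine h3.trans ?_
      rw [hδ0]
      refine mul_le_mul_of_nonneg_right ?_ (Real.rpow_nonneg (Nat.cast_nonneg _) _)
      rw [mul_assoc]
      refine mul_le_mul_of_nonneg_left ?_ (Nat.cast_nonneg _)
      push_cast
      rw [← pow_succ]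
      exact pow_le_pow_right₀ hBR (by omega)
    · intro ρ hρ
      have hex : ∀ ℓ : ℕ, ∃ T : Set QB, HUK.Spa QB (1 / 4) T ∧ ∀ (hℓ : Fact ℓ.Prime), ∀ x ∉ T,
          ∀ ρx : Stab x →* GL d ℚ_[ℓ], SpecializesAt (ρ ℓ) x ρx →
            ∀ (K : Type u) [Field K] [Algebra ℚ_[ℓ] K], monodromy ρx K = monodromy (ρ ℓ) K := by
        intro ℓ
        by_cases hℓ : Nat.Prime ℓ
        · have : Fact ℓ.Prime := ⟨hℓ⟩
          obtain ⟨T, hT, h3⟩ := hL d ℓ (ρ ℓ) (hρ ℓ)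
          exact ⟨T, hT, fun _ => h3⟩
        · refine ⟨∅, fun m A => ⟨0, fun X _ x _ => ?_⟩, fun h => absurd h.out hℓ⟩
          have h4 : IsEmpty {κ : ℕ // κ < X ∧ x + (κ : QB) ∈ (∅ : Set QB)} :=
            ⟨fun κ => κ.2.2⟩
          rw [Nat.card_of_isEmpty]
          simp
      choose T0 hT hT1 using hex
      obtain ⟨T, N, hT', hN⟩ := hSpd QB (1 / 4) (1 / 5) (by norm_num) T0 hT
      choose Ct hCt using hT'
      obtain ⟨Y, Y', hY⟩ := fewMk hHbc QB (fun _ _ => 1 / 5) Ct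
      have hTF := hY T 1 le_rfl (fun m A X hX x hx => by
        rw [mul_one]
        exact hCt m A X hX x hx)
      refine ⟨T, fun ℓ => N ℓ + 2, ⟨fun m A => Y m A * 1, fun k _ _ A => Y' k A * 1, ?_⟩, ?_⟩
      · simpa only [min_self] using hTF
      intro ℓ hℓ x hx hNx ρx hsp K _ _ _
      have hx0 : x ∉ T0 ℓ := fun h => hx (hN ℓ x h fun m hm => by
        obtain ⟨e, he⟩ := hNx
        have h3 := cauA QB e m (N ℓ) x hm
        push_cast at he
        linarith)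
      have hmon := hT1 ℓ hℓ x hx0 ρx hsp K
      refine ⟨hmon, fun e he E V hV => ?_⟩
      have h3 := (hside _ he E V hV).1 K
      refine ⟨by rw [hmon, h3], fun R hR hRx hfix y hy hyS E' V' hV' => ?_⟩
      have h4 := (hside _ he E V hV).2 R hR hRx hfix y hy E' V' hV'.1 hV'.2.2 K
      have h5 := (hside y hyS E' V' hV').2 R hR hy hfix _ hRx E V hV.1 hV.2.2 K
      rw [hmon, Set.Subset.antisymm h5 h4]
  · intro m A
    exact lt_min (hδ0' _ _) (lt_min (hδ0' _ _) (hδ0' _ _))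

end Pool.Agent.PSV.H88
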