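import Pool.Agent.PSV.StmtsS
import Pool.Agent.Helper25_PSV.GTP
import Pool.Agent.Helper84_PSV.BNP
import Pool.Agent.Helper20_MTD.Trg
import Pool.Agent.Helper39_MT.Gal3

/-! PSV, row TRB: the constants of the translate. -/

set_option autoImplicit false

namespace Pool.Agent.PSV.H88.TRB

open Matrix PowerSeries Pool.Agent.MT100 Pool.Agent.MT100.H27 Pool.Agent.MT100.H34
  Pool.Agent.MT100D Pool.Agent.MT100D.H20 Pool.Agent.PSV

/-! ### The geometric series -/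

theorem coeff_gV (κ n : ℕ) : coeff n (gV κ) = (κ : ℚ) ^ n := by
  have h0 : ((1 - Polynomial.C (κ : ℚ) * Polynomial.X : Polynomial ℚ) : PowerSeries ℚ) =
      1 - C (κ : ℚ) * X := by
    rw [Polynomial.coe_sub, Polynomial.coe_one, Polynomial.coe_mul, Polynomial.coe_C,
      Polynomial.coe_X]
  have hc : constantCoeff (1 - C (κ : ℚ) * X : PowerSeries ℚ) ≠ 0 := by simp
  have h1 : gV κ = PowerSeries.mk fun n => (κ : ℚ) ^ n := by
    unfold gV
    rw [h0]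
    refine ((PowerSeries.eq_inv_iff_mul_eq_one hc).2 ?_).symm
    ext m
    have e : (PowerSeries.mk fun n => (κ : ℚ) ^ n) * (1 - C (κ : ℚ) * X) =
        (PowerSeries.mk fun n => (κ : ℚ) ^ n) -
          C (κ : ℚ) * ((PowerSeries.mk fun n => (κ : ℚ) ^ n) * X) := by ring
    rw [e, map_sub, PowerSeries.coeff_C_mul, PowerSeries.coeff_mk, PowerSeries.coeff_one]
    cases m with
    | zero => simp
    | succ m =>
      rw [PowerSeries.coeff_succ_mul_X, PowerSeries.coeff_mk, if_neg (Nat.succ_ne_zero m),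
        pow_succ]
      ring
  rw [h1, PowerSeries.coeff_mk]

theorem geo_gV (κ : ℕ) : Geo 1 (κ + 1) (gV κ) := by
  intro n
  rw [coeff_gV]
  refine ⟨⟨(κ : ℤ) ^ n, by push_cast; ring⟩, ?_⟩
  have h1 : (0 : ℚ) ≤ κ := Nat.cast_nonneg κ
  rw [abs_of_nonneg (by positivity)]
  push_cast
  calc (κ : ℚ) ^ n ≤ ((κ : ℚ) + 1) ^ n := pow_le_pow_left₀ h1 (by linarith) _
    _ ≤ ((κ : ℚ) + 1) ^ (n + 1) := pow_le_pow_right₀ (by linarith) (Nat.le_succ n)

/-- substitution: as `gtype_sv` of Helper27_MT/Geo.lean, explicit -/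
theorem gtc_sv0 {a b A : ℕ} (ha : 0 < a) (hb : 0 < b) (hA : 0 < A) {V : PowerSeries ℚ}
    (hV : Geo a b V) {f : PowerSeries ℚ} (hf : GTC A f) : GTC (4 * A * a * b) (sv V f) := by
  have hA1 : (1 : ℚ) ≤ A := by exact_mod_cast hA
  have hb1 : (1 : ℚ) ≤ b := by exact_mod_cast hb
  have ha1 : (1 : ℚ) ≤ a := by exact_mod_cast ha
  refine fun k => ⟨?_, ?_⟩
  · rw [coeff_sv]
    have h1 : ∀ d ∈ Finset.range (k + 1), |coeff d f * coeff (k - d) (V ^ d)| ≤
        (A : ℚ) ^ (k + 1) * (2 * b : ℚ) ^ (k + 1) := by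
      intro d hd
      have hd' : d ≤ k := Nat.lt_succ_iff.mp (Finset.mem_range.mp hd)
      rw [abs_mul]
      have h2 : |coeff d f| ≤ (A : ℚ) ^ (k + 1) :=
        (hf d).1.trans (pow_le_pow_right₀ hA1 (by omega))
      have h3 : |coeff (k - d) (V ^ d)| ≤ (2 * b : ℚ) ^ (k + 1) :=
        (geo_pow hb hV d (k - d)).2.trans (pow_le_pow_right₀ (by linarith) (by omega))
      exact mul_le_mul h2 h3 (abs_nonneg _) (by positivity)
    refine (Finset.abs_sum_le_sum_abs _ _).trans ((Finset.sum_le_sum h1).trans ?_)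
    rw [Finset.sum_const, Finset.card_range, nsmul_eq_mul]
    have h5 : ((k + 1 : ℕ) : ℚ) ≤ 2 ^ (k + 1) := by exact_mod_cast (Nat.lt_two_pow_self).le
    calc ((k + 1 : ℕ) : ℚ) * ((A : ℚ) ^ (k + 1) * (2 * b : ℚ) ^ (k + 1))
        ≤ 2 ^ (k + 1) * ((A : ℚ) ^ (k + 1) * (2 * b : ℚ) ^ (k + 1)) :=
          mul_le_mul_of_nonneg_right h5 (by positivity)
      _ = (4 * A * b : ℚ) ^ (k + 1) := by
          rw [← mul_pow, ← mul_pow]
          congr 1
          ring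
      _ ≤ ((4 * A * a * b : ℕ) : ℚ) ^ (k + 1) := by
          apply pow_le_pow_left₀ (by positivity)
          push_cast
          have : (4 * A * b : ℚ) * 1 ≤ (4 * A * b) * a :=
            mul_le_mul_of_nonneg_left ha1 (by positivity)
          linarith
  · obtain ⟨Dn, hD1, hD2, hD3⟩ := (hf k).2
    refine ⟨Dn * a ^ (k + 1), by positivity, ?_, ?_⟩
    · calc Dn * a ^ (k + 1) ≤ A ^ (k + 1) * a ^ (k + 1) := Nat.mul_le_mul_right _ hD2
        _ = (A * a) ^ (k + 1) := (mul_pow _ _ _).symm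
        _ ≤ (4 * A * a * b) ^ (k + 1) := by
          apply Nat.pow_le_pow_left
          calc A * a = 1 * (A * a) * 1 := by ring
            _ ≤ 4 * (A * a) * b := Nat.mul_le_mul (Nat.mul_le_mul_right _ (by norm_num)) hb
            _ = 4 * A * a * b := by ring
    · intro i hi
      have h1 : ∀ d ∈ Finset.range (i + 1), ∃ z : ℤ,
          ((Dn * a ^ (k + 1) : ℕ) : ℚ) * (coeff d f * coeff (i - d) (V ^ d)) = z := by
        intro d hd
        have hd1 : d ≤ i := Nat.lt_succ_iff.mp (Finset.mem_range.mp hd)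
        obtain ⟨z, hz⟩ := hD3 d (by omega)
        obtain ⟨y, hy⟩ := (geo_pow hb hV d (i - d)).1
        refine ⟨z * y * a ^ (k + 1 - i), ?_⟩
        push_cast
        rw [← hz, ← hy]
        have h2 : (a : ℚ) ^ (k + 1) = a ^ (i - d + d) * a ^ (k + 1 - i) := by
          rw [← pow_add]
          congr 1
          omega
        rw [h2]
        ring
      choose! g hg using h1
      refine ⟨∑ d ∈ Finset.range (i + 1), g d, ?_⟩
      rw [coeff_sv, Finset.mul_sum, Int.cast_sum]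
      exact Finset.sum_congr rfl fun d hd => hg d hd

theorem gtc_sv {B κ : ℕ} (hB : 2 ≤ B) (hκ : κ ≤ B) {f : PowerSeries ℚ} (hf : GTC B f) :
    GTC (B ^ 5) (sv (gV κ) f) := by
  refine H25.mono ?_ (gtc_sv0 one_pos (Nat.succ_pos κ) (by omega) (geo_gV κ) hf)
  have h1 : κ + 1 ≤ B ^ 2 := by nlinarith
  have h2 : 4 ≤ B ^ 2 := by nlinarith
  calc 4 * B * 1 * (κ + 1) = 4 * B * (κ + 1) := by ring
    _ ≤ B ^ 2 * B * B ^ 2 := Nat.mul_le_mul (Nat.mul_le_mul_right _ h2) h1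
    _ = B ^ 5 := by ring

/-! ### The logarithm -/

theorem coeff_lgp (κ k : ℕ) : coeff k (lgp (Polynomial.X : Polynomial ℚ) κ) =
    if k = 0 then 0 else (κ : ℚ) ^ k / (k : ℚ) := by
  have hrvp : rvp (Polynomial.X : Polynomial ℚ) κ = 1 - Polynomial.C (κ : ℚ) * Polynomial.X := by
    unfold rvp
    rw [Polynomial.natDegree_X, Finset.sum_range_succ, Finset.sum_range_one,
      Polynomial.coeff_X_zero, Polynomial.coeff_X_one]
    simp
  unfold lgp
  rw [PowerSeries.coeff_mk, hrvp]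
  by_cases hk : k = 0
  · rw [if_pos hk, if_pos hk]
  rw [if_neg hk, if_neg hk]
  have h1 : -((Polynomial.derivative (1 - Polynomial.C (κ : ℚ) * Polynomial.X) :
      Polynomial ℚ) : PowerSeries ℚ) = C (κ : ℚ) := by
    have h2 : Polynomial.derivative (1 - Polynomial.C (κ : ℚ) * Polynomial.X) =
        -Polynomial.C (κ : ℚ) := by simp
    rw [h2, Polynomial.coe_neg, Polynomial.coe_C, neg_neg]
  have h3 : ((1 - Polynomial.C (κ : ℚ) * Polynomial.X : Polynomial ℚ) : PowerSeries ℚ)⁻¹ =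
      gV κ := rfl
  rw [h1, h3, PowerSeries.coeff_C_mul, coeff_gV]
  obtain ⟨m, rfl⟩ := Nat.exists_eq_succ_of_ne_zero hk
  rw [Nat.succ_sub_one, Nat.succ_eq_add_one, pow_succ, mul_comm (κ : ℚ)]

theorem gtc_lgp : ∃ a : ℕ, ∀ B κ : ℕ, 2 ≤ B → κ ≤ B →
    GTC (B ^ a) (lgp (Polynomial.X : Polynomial ℚ) κ) := by
  obtain ⟨CL, hCL0, hCL⟩ := Helper39_MT.lcm_bound
  refine ⟨CL + 1, fun B κ hB hκ k => ?_⟩
  have hB1 : 1 ≤ B := by omega
  have hBq : (1 : ℚ) ≤ B := by exact_mod_cast hB1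
  have hκB : (κ : ℚ) ≤ B := by exact_mod_cast hκ
  have hκ0 : (0 : ℚ) ≤ κ := Nat.cast_nonneg κ
  have hpw : B ^ k ≤ (B ^ (CL + 1)) ^ (k + 1) := by
    rw [← pow_mul]
    exact Nat.pow_le_pow_right (by omega) (by nlinarith)
  refine ⟨?_, Nat.lcmUpto k, Nat.lcmUpto_pos k, ?_, fun i hi => ?_⟩
  · rw [coeff_lgp]
    by_cases hk : k = 0
    · rw [if_pos hk, abs_zero]
      positivity
    rw [if_neg hk]
    have hk1 : (1 : ℚ) ≤ k := by exact_mod_cast Nat.one_le_iff_ne_zero.2 hk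
    rw [abs_of_nonneg (by positivity)]
    calc (κ : ℚ) ^ k / k ≤ (κ : ℚ) ^ k := div_le_self (by positivity) hk1
      _ ≤ (B : ℚ) ^ k := pow_le_pow_left₀ hκ0 hκB _
      _ ≤ ((B ^ (CL + 1) : ℕ) : ℚ) ^ (k + 1) := by exact_mod_cast hpw
  · refine (hCL k).trans ?_
    have h1 : CL ≤ B ^ CL := (Nat.lt_pow_self (by omega)).le
    calc CL ^ k ≤ (B ^ CL) ^ k := Nat.pow_le_pow_left h1 k
      _ = B ^ (CL * k) := (pow_mul _ _ _).symm
      _ ≤ B ^ ((CL + 1) * (k + 1)) := Nat.pow_le_pow_right hB1 (by nlinarith)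
      _ = (B ^ (CL + 1)) ^ (k + 1) := pow_mul _ _ _
  · rw [coeff_lgp]
    by_cases hi0 : i = 0
    · rw [if_pos hi0]
      exact ⟨0, by simp⟩
    rw [if_neg hi0]
    obtain ⟨t, ht⟩ := Helper39_MT.dvd_lcmUpto (Nat.one_le_iff_ne_zero.2 hi0) hi
    refine ⟨(t : ℤ) * (κ : ℤ) ^ i, ?_⟩
    have hi1 : (i : ℚ) ≠ 0 := by exact_mod_cast hi0
    rw [ht]
    push_cast
    field_simp

/-! ### The exponential -/

theorem npow_bd {d : Type} [Fintype d] [DecidableEq d] {n B : ℕ} (N : Matrix d d ℤ)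
    (hd : Fintype.card d ≤ n) (hN : ∀ i j, |N i j| ≤ (B : ℤ)) (j : ℕ) :
    ∀ i k, |(N ^ j) i k| ≤ ((n * B : ℕ) : ℤ) ^ j := by
  induction j with
  | zero =>
    intro i k
    rw [pow_zero, pow_zero, Matrix.one_apply]
    split_ifs <;> simp
  | succ j ih =>
    intro i k
    rw [pow_succ, Matrix.mul_apply]
    refine (Finset.abs_sum_le_sum_abs _ _).trans ?_
    have h1 : ∀ l ∈ (Finset.univ : Finset d), |(N ^ j) i l * N l k| ≤
        ((n * B : ℕ) : ℤ) ^ j * (B : ℤ) := fun l _ => by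
      rw [abs_mul]
      exact mul_le_mul (ih i l) (hN l k) (abs_nonneg _) (by positivity)
    refine (Finset.sum_le_sum h1).trans ?_
    rw [Finset.sum_const, Finset.card_univ, nsmul_eq_mul]
    have h2 : ((Fintype.card d : ℕ) : ℤ) ≤ n := by exact_mod_cast hd
    calc ((Fintype.card d : ℕ) : ℤ) * (((n * B : ℕ) : ℤ) ^ j * (B : ℤ))
        ≤ (n : ℤ) * (((n * B : ℕ) : ℤ) ^ j * (B : ℤ)) :=
          mul_le_mul_of_nonneg_right h2 (by positivity)
      _ = ((n * B : ℕ) : ℤ) ^ (j + 1) := by push_cast; ring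

theorem gtc_eN (n : ℕ) : ∃ a : ℕ, ∀ (d : Type) [Fintype d] [DecidableEq d] (N : Matrix d d ℤ)
    (B : ℕ) (x : PowerSeries ℚ), 2 ≤ B → Fintype.card d ≤ n → (∀ i j, |N i j| ≤ (B : ℤ)) →
    GTC B x → ∀ i j, GTC (B ^ a) (eN N x i j) := by
  obtain ⟨-, h2, -, a4, h4⟩ := H25.gtp
  obtain ⟨a2, h2⟩ := h2 n
  obtain ⟨e, he⟩ : ∃ e : ℕ, e = (n + 1) * n + n * n + 1 := ⟨_, rfl⟩
  obtain ⟨b, hb⟩ : ∃ b : ℕ, b = e * a4 + a2 + 1 := ⟨_, rfl⟩
  refine ⟨(b * 4) * a2, ?_⟩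
  intro d _ _ N B x hB hd hN hx i k
  have hB1 : 1 ≤ B := by omega
  have hBn : n ≤ B ^ n := (Nat.lt_pow_self (by omega)).le
  have hpw : ∀ m : ℕ, 1 ≤ m → 2 ≤ B ^ m := fun m hm =>
    hB.trans (Nat.le_self_pow (by omega) B)
  unfold eN
  rw [Matrix.sum_apply, Finset.sum_range, pow_mul]
  refine (h2 (Fin (Fintype.card d)) (B ^ (b * 4)) _ (hpw _ (by omega)) ?_ ?_).1
  · rw [Fintype.card_fin]
    exact hd
  · intro j
    have hj : (j : ℕ) < n := lt_of_lt_of_le j.2 hd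
    rw [Matrix.smul_apply, Matrix.map_apply, smul_eq_mul]
    have h5 : (((j : ℕ).factorial : ℚ)⁻¹ • x ^ (j : ℕ)) * (((N ^ (j : ℕ)) i k : ℤ) : PowerSeries ℚ) =
        C ((((j : ℕ).factorial : ℚ)⁻¹) * (((N ^ (j : ℕ)) i k : ℤ) : ℚ)) * x ^ (j : ℕ) := by
      rw [PowerSeries.smul_eq_C_mul, map_mul, map_intCast]
      ring
    rw [h5, pow_mul]
    obtain ⟨z, hz⟩ : ∃ z : ℤ, z = (N ^ (j : ℕ)) i k := ⟨_, rfl⟩
    have hzb : |z| ≤ ((n * B : ℕ) : ℤ) ^ (j : ℕ) := by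
      rw [hz]
      exact npow_bd N hd hN j i k
    rw [← hz]
    have hf0 : 0 < (j : ℕ).factorial := Nat.factorial_pos _
    have hr : RB (B ^ e) ((((j : ℕ).factorial : ℚ)⁻¹) * (z : ℚ)) := by
      refine ⟨?_, ?_⟩
      · have h6 : (((j : ℕ).factorial : ℚ)⁻¹) * (z : ℚ) = (z : ℚ) / (((j : ℕ).factorial : ℤ) : ℚ) := by
          push_cast
          field_simp
        have h7 : ((((j : ℕ).factorial : ℚ)⁻¹) * (z : ℚ)).den ∣ (j : ℕ).factorial := by
          rw [h6]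
          exact_mod_cast Rat.den_dvd z ((j : ℕ).factorial : ℤ)
        refine (Nat.le_of_dvd hf0 h7).trans ?_
        calc (j : ℕ).factorial ≤ n.factorial := Nat.factorial_le hj.le
          _ ≤ n ^ n := Nat.factorial_le_pow n
          _ ≤ (B ^ n) ^ n := Nat.pow_le_pow_left hBn n
          _ = B ^ (n * n) := (pow_mul _ _ _).symm
          _ ≤ B ^ e := Nat.pow_le_pow_right hB1 (by rw [he]; omega)
      · rw [abs_mul, abs_inv, Nat.abs_cast]
        have h8 : |(z : ℚ)| ≤ ((B ^ e : ℕ) : ℚ) := by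
          have h9 : ((n * B : ℕ) : ℤ) ^ (j : ℕ) ≤ ((B ^ e : ℕ) : ℤ) := by
            have h10 : (n * B) ^ (j : ℕ) ≤ B ^ e := by
              have h11 : 1 ≤ B ^ n * B := Nat.mul_pos (Nat.pow_pos (by omega)) (by omega)
              calc (n * B) ^ (j : ℕ) ≤ (B ^ n * B) ^ (j : ℕ) :=
                    Nat.pow_le_pow_left (Nat.mul_le_mul_right _ hBn) _
                _ ≤ (B ^ n * B) ^ n := Nat.pow_le_pow_right h11 hj.le
                _ = B ^ ((n + 1) * n) := by rw [← pow_succ, ← pow_mul]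
                _ ≤ B ^ e := Nat.pow_le_pow_right hB1 (by rw [he]; omega)
            exact_mod_cast h10
          exact_mod_cast hzb.trans h9
        have h12 : (((j : ℕ).factorial : ℚ))⁻¹ ≤ 1 := by
          refine inv_le_one_of_one_le₀ ?_
          exact_mod_cast hf0
        calc (((j : ℕ).factorial : ℚ))⁻¹ * |(z : ℚ)| ≤ 1 * |(z : ℚ)| :=
              mul_le_mul_of_nonneg_right h12 (abs_nonneg _)
          _ = |(z : ℚ)| := one_mul _
          _ ≤ _ := h8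
    have g1 : GTC (B ^ b) (C ((((j : ℕ).factorial : ℚ)⁻¹) * (z : ℚ))) := by
      refine H25.mono ?_ (h4 (B ^ e) _ (hpw e (by rw [he]; omega)) hr)
      rw [← pow_mul]
      exact Nat.pow_le_pow_right hB1 (by rw [hb]; omega)
    have g2 : GTC (B ^ b) (x ^ (j : ℕ)) := by
      have h13 := (h2 (Fin (j : ℕ)) B (fun _ => x) hB (by rw [Fintype.card_fin]; omega)
        (fun _ => hx)).2
      rw [Finset.prod_const, Finset.card_univ, Fintype.card_fin] at h13
      exact H25.mono (Nat.pow_le_pow_right hB1 (by rw [hb]; omega)) h13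
    exact H25.gmul (hpw b (by omega)) g1 g2

/-! ### Products of matrices -/

theorem gtc_mmul (n : ℕ) : ∃ a : ℕ, ∀ (d : Type) [Fintype d] (B : ℕ)
    (X Y : Matrix d d (PowerSeries ℚ)), 2 ≤ B → Fintype.card d ≤ n → (∀ i j, GTC B (X i j)) →
    (∀ i j, GTC B (Y i j)) → ∀ i j, GTC (B ^ a) ((X * Y) i j) := by
  obtain ⟨-, h2, -⟩ := H25.gtp
  obtain ⟨a2, h2⟩ := h2 n
  refine ⟨4 * a2, ?_⟩
  intro d _ B X Y hB hd hX hY i j
  rw [Matrix.mul_apply, pow_mul]
  exact (h2 d (B ^ 4) _ (hB.trans (Nat.le_self_pow (by omega) B)) hd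
    fun k => H25.gmul hB (hX i k) (hY k j)).1

theorem gtc_neg {B : ℕ} {f : PowerSeries ℚ} (hf : GTC B f) : GTC B (-f) := by
  intro k
  obtain ⟨h1, D, h2, h3, h4⟩ := hf k
  refine ⟨by rw [map_neg, abs_neg]; exact h1, D, h2, h3, fun i hi => ?_⟩
  obtain ⟨z, hz⟩ := h4 i hi
  exact ⟨-z, by rw [map_neg]; push_cast; rw [← hz]; ring⟩

theorem gtc_zero {B : ℕ} (hB : 1 ≤ B) : GTC B (0 : PowerSeries ℚ) := fun k =>
  ⟨by rw [map_zero, abs_zero]; positivity, 1, one_pos, Nat.one_le_pow _ _ hB,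
    fun i _ => ⟨0, by rw [map_zero]; simp⟩⟩

theorem trb : TrbStmt := by
  intro n
  obtain ⟨al, hl⟩ := gtc_lgp
  obtain ⟨ae, hE⟩ := gtc_eN n
  obtain ⟨am, hm⟩ := gtc_mmul n
  obtain ⟨ab, hbn⟩ := H84.bnp
  obtain ⟨b, hb⟩ : ∃ b : ℕ, b = 5 + (al + 1) * ae + ab + 1 := ⟨_, rfl⟩
  refine ⟨(b * (am + 1)) * am, ?_⟩
  intro d _ _ H K N δ q Bm B κ hS hκ
  have hB := hS.two
  have hB1 : 1 ≤ B := by omega
  have hpw : ∀ m : ℕ, 1 ≤ m → 2 ≤ B ^ m := fun m hm => hB.trans (Nat.le_self_pow (by omega) B)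
  have hle : ∀ m m' : ℕ, m ≤ m' → B ^ m ≤ B ^ m' := fun m m' h => Nat.pow_le_pow_right hB1 h
  have hlg : GTC (B ^ (al + 1)) (lgp (Polynomial.X : Polynomial ℚ) κ) :=
    H25.mono (hle _ _ (Nat.le_succ al)) (hl B κ hB hκ)
  have hNB : ∀ i j, |N i j| ≤ ((B ^ (al + 1) : ℕ) : ℤ) := fun i j =>
    (hS.hN i j).trans (by exact_mod_cast Nat.le_self_pow (Nat.succ_ne_zero al) B)
  have gE : ∀ x : PowerSeries ℚ, GTC (B ^ (al + 1)) x → ∀ i j, GTC (B ^ b) (eN N x i j) := by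
    intro x hx i j
    refine H25.mono ?_ (hE d N (B ^ (al + 1)) x (hpw _ (by omega)) hS.card hNB hx i j)
    rw [← pow_mul]
    exact hle _ _ (by rw [hb]; omega)
  have gD : ∀ ε : d → ℚ, (∀ i, RB B (ε i)) → ∀ i j, GTC (B ^ b)
      ((diagonal fun i => bn κ (ε i) : Matrix d d (PowerSeries ℚ)) i j) := by
    intro ε hε i j
    rw [diagonal_apply]
    split_ifs
    · exact H25.mono (hle _ _ (by rw [hb]; omega)) (hbn B κ hB hκ _ (hε i))
    · exact gtc_zero (Nat.one_le_pow _ _ hB1)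
  have gS : ∀ A : Matrix d d (PowerSeries ℚ), (∀ i j, GTC B (A i j)) → ∀ i j, GTC (B ^ b)
      ((A.map (sv (gV κ))) i j) := by
    intro A hA i j
    rw [Matrix.map_apply]
    exact H25.mono (hle _ _ (by rw [hb]; omega)) (gtc_sv hB hκ (hA i j))
  have hδn : ∀ i, RB B (-δ i) := fun i => by
    obtain ⟨h1, h2⟩ := hS.hδ i
    exact ⟨by rw [Rat.neg_den]; exact h1, by rw [abs_neg]; exact h2⟩
  have hb1 : 1 ≤ b := by rw [hb]; omega
  have hb2 : 1 ≤ b * (am + 1) := Nat.mul_pos hb1 (Nat.succ_pos am)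
  have up : ∀ {f : PowerSeries ℚ}, GTC (B ^ b) f → GTC (B ^ (b * (am + 1))) f := fun h =>
    H25.mono (hle _ _ (Nat.le_mul_of_pos_right _ (Nat.succ_pos am))) h
  have up2 : ∀ {f : PowerSeries ℚ}, GTC ((B ^ b) ^ am) f → GTC (B ^ (b * (am + 1))) f := fun h =>
    H25.mono (by rw [← pow_mul]; exact hle _ _ (Nat.mul_le_mul_left b (Nat.le_succ am))) h
  have hsvT : TrD H N δ κ = H.map (sv (gV κ)) * eN N (lgp (Polynomial.X : Polynomial ℚ) κ) *
      diagonal fun i => bn κ (-δ i) := by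
    have hrvp : rvp (Polynomial.X : Polynomial ℚ) κ =
        1 - Polynomial.C (κ : ℚ) * Polynomial.X := by
      unfold rvp
      rw [Polynomial.natDegree_X, Finset.sum_range_succ, Finset.sum_range_one,
        Polynomial.coeff_X_zero, Polynomial.coeff_X_one]
      simp
    have hmob : mobp (Polynomial.X : Polynomial ℚ) κ = X * gV κ := by
      unfold mobp gV
      rw [hrvp, Polynomial.natDegree_X, pow_one]
    unfold TrD TrG
    congr 2
    refine Matrix.ext fun i j => ?_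
    rw [Matrix.map_apply, Matrix.map_apply, sv_apply, hmob]
  intro i j
  refine ⟨?_, ?_⟩
  · rw [hsvT, pow_mul]
    exact hm d (B ^ (b * (am + 1))) _ _ (hpw _ hb2) hS.card
      (fun i j => up2 (hm d (B ^ b) _ _ (hpw _ hb1) hS.card (gS H hS.gH) (gE _ hlg) i j))
      (fun i j => up (gD _ hδn i j)) i j
  · unfold TrK
    rw [pow_mul]
    exact hm d (B ^ (b * (am + 1))) _ _ (hpw _ hb2) hS.card
      (fun i j => up (gD _ hS.hδ i j))
      (fun i j => up2 (hm d (B ^ b) _ _ (hpw _ hb1) hS.card (gE _ (gtc_neg hlg))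
        (gS K hS.gK) i j)) i j

end Pool.Agent.PSV.H88.TRB
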