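import Pool.Agent.Helper88_PSV.All0
import Pool.Agent.Helper88_PSV.TRB
import Pool.Agent.Helper88_PSV.BAE
import Pool.Agent.Helper22_HIP.CNI
import Pool.Agent.Helper15_HIP.CLI
import Pool.Agent.Helper91_HIP.DET
import Pool.Agent.Helper44_HIP.MNM
import Pool.Agent.Helper17_HIP.HSD
import Pool.Agent.Helper92_HIP.LNV
import Pool.Agent.Helper10_HIP.NRM
import Pool.Agent.Helper84_HIP.EXP
import Pool.Agent.Helper52_HIK.RTB

/-! PSV: the uniform theorem N1 without hypotheses. -/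

set_option autoImplicit false

namespace Pool.Agent.PSV.H88

open Pool.Agent.HIK Pool.Agent.MTN Pool.Agent.MT100

universe u

theorem baeA : BaeStmt := bae H6.ace H45.val
theorem maqA : MaqStmt.{u} := maq0 TRB.trb baeA
theorem cniA : HIP.CniStmt :=
  HIP.H22.cni (HIP.H15.cli HIP.H91.det HIP.H44.mnm HIP.H17.hsd HIP.H92.lnv HIP.H10.nrm)
    HIP.H84.exp HIK.H52.rtb rtsA sngA
theorem fniA : HIP.FniStmt.{u} := fni0 cniA
theorem n1uA : N1uStmt.{u} := n1u0 TRB.trb baeA cniA

end Pool.Agent.PSV.H88
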