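import Pool.Agent.Helper88_PSV.N1u
import Pool.Agent.Helper38_PSV.MAQ
import Pool.Agent.Helper38_PSV.SMQ
import Pool.Agent.Helper1_PSV.WDQ
import Pool.Agent.Helper56_PSV.FPQ
import Pool.Agent.Helper6_PSV.ACE
import Pool.Agent.Helper60_PSV.SZM
import Pool.Agent.Helper29_PSV.ELQ
import Pool.Agent.Helper29_PSV.NMQ
import Pool.Agent.Helper45_PSV.TPQ
import Pool.Agent.Helper45_PSV.VAL
import Pool.Agent.Helper84_PSV.BNP
import Pool.Agent.Helper25_PSV.GTP
import Pool.Agent.Helper1_PSV.GMP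
import Pool.Agent.Helper44_PSV.BGP
import Pool.Agent.Helper81_PSV.GAP
import Pool.Agent.Helper38_PSV.SIP
import Pool.Agent.Helper17_PSV.SAT
import Pool.Agent.Helper21_PSV.GMQ2
import Pool.Agent.Helper1_PSV.VGQ
import Pool.Agent.Helper85_PSV.FSQ
import Pool.Agent.Helper44_PSV.FSE
import Pool.Agent.Helper72_PSV.PSE
import Pool.Agent.Helper64_PSV.TUE
import Pool.Agent.Helper55_PSV.AMQ
import Pool.Agent.Helper56_PSV.TRE
import Pool.Agent.Helper89_PSV.TRA
import Pool.Agent.Helper32_PSV.SYE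
import Pool.Agent.Helper97_MTD.Ass
import Pool.Agent.Helper20_MTA.Ten
import Pool.Agent.Helper78_MTA.Teu
import Pool.Agent.Helper64_MTA.Lie
import Pool.Agent.Helper49_MTN.PTH
import Pool.Agent.Helper13_HIP.FNI
import Pool.Agent.Helper40_HIP.SRI
import Pool.Agent.Helper28_HIP.HCI
import Pool.Agent.Helper67_HIP.EXI
import Pool.Agent.Helper41_HIP.ALI
import Pool.Agent.Helper41_HIP.HIZ
import Pool.Agent.Helper41_HIP.PZC
import Pool.Agent.Helper13_HIP.PZD
import Pool.Agent.Helper21_HIP.AVZ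

/-! PSV: assembly of the uniform N1, from the rows TRB, BAE, CNI. -/

set_option autoImplicit false

namespace Pool.Agent.PSV.H88

open Pool.Agent.HIK Pool.Agent.MTN Pool.Agent.MT100

universe u

theorem gapA : GapStmt := H81.gap (H44.bgp H84.bnp H1.gmp) H1.gmp
theorem gmqA : GmqStmt := H21.gmqS H45.val H25.gtp gapA H38.sip H17.sat
theorem fse0 (bae : BaeStmt) : FseStmt := H44.fse bae (H72.pse H64.tue)
theorem vgq0 (trb : TrbStmt) : VgqStmt := H1.vgq trb H6.ace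
theorem fsq0 (trb : TrbStmt) (bae : BaeStmt) : FsqStmt :=
  H85.fsq (fse0 bae) (vgq0 trb) trb H6.ace H60.szm
theorem nmq0 (trb : TrbStmt) (bae : BaeStmt) : NmqStmt :=
  H29.nmq gmqA (vgq0 trb) (fsq0 trb bae) H55.amq (H56.tre H89.tra trb) (H32.sye H25.gtp) H60.szm
theorem maq0 (trb : TrbStmt) (bae : BaeStmt) : MaqStmt.{u} :=
  H38.maq (H29.elq (nmq0 trb bae) H45.tpq) MT100A.H20.ten MT100A.H78.teu MT100A.H64.lie
    MT100D.H97.bas MT100D.H97.moa
theorem wdqA : WdqStmt := H1.wdq (H38.smq boxA) MTN.H49.pth boxA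
theorem fni0 (cni : HIP.CniStmt) : HIP.FniStmt.{u} :=
  HIP.H13.fni (HIP.H40.sri (HIP.H28.hci (HIP.H67.exi HIP.H41.ali)
    (HIP.H41.hiz cni (HIP.H21.avz boxA)) HIP.H41.pzc) dekA gpfA)
theorem n1u0 (trb : TrbStmt) (bae : BaeStmt) (cni : HIP.CniStmt) : N1uStmt.{u} :=
  n1u (maq0 trb bae) wdqA (H56.fpq H6.ace) H60.szm (fni0 cni) HIP.H41.pzc HIP.H13.pzd

end Pool.Agent.PSV.H88
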