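import Pool.Agent.Helper88_PSV.N1z
import Pool.Agent.Helper97_MTE.Ass

/-! PSV: N4Z, the Mumford-Tate conjecture for one hundred percent of the points of the families whose
commutant is of type (0,0), uniformly in the family, all number fields at once. -/

set_option autoImplicit false

namespace Pool.Agent.PSV.H88

open Matrix Polynomial NumberField Pool.Agent.MT100 Pool.Agent.MT100G Pool.Agent.MT100A
  Pool.Agent.MT100D Pool.Agent.MT100E Pool.Agent.Helper78_MT Pool.Agent.MTL Pool.Agent.MTN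
  Pool.Agent.MTN.H53 Pool.Agent.HIK Pool.Agent.PSV

universe u

/-- N4Z: the Mumford-Tate conjecture for one hundred percent of the points of the families whose commutant is of type (0,0). -/
def N4zStmt : Prop :=
  (∀ (d : Type) [Fintype d] [DecidableEq d] (F : Family d), ∃ n B : ℕ,
    Siz n B F.H F.K F.N F.δ F.q F.B) ∧
  ∀ n : ℕ, ∃ (c : ℕ) (a : ℕ → ℕ → ℕ) (δ Z : ℕ → ℕ → ℝ)
    (Z' : (k : Type) → [Field k] → [NumberField k] → ℕ → ℝ), (∀ m A, 0 < δ m A) ∧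
    ∀ (d : Type) [Fintype d] [DecidableEq d] (F : Family d) (B : ℕ),
    Siz n B F.H F.K F.N F.δ F.q F.B →
    ∀ (w : ℕ) (lev : d → ℕ), 1 ≤ w → ∀ P : Matrix d d ℂ, IsUnit P.det → F.IntM P →
      ∃ S : Set ℂ,
        (∀ (m A K : ℕ), ∀ x ∈ Pts m A, ((B * (K + 1) : ℕ) : ℝ) ^ a m A ≤ ‖x‖ →
          Nat.card {κ : ℕ // κ < K ∧ x - κ ∈ S} ≤ B ^ c) ∧
        FewC S δ (fun m A => Z m A * (B : ℝ) ^ c) (fun k _ _ A => Z' k A * (B : ℝ) ^ c) ∧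
        (∀ x : ℂ, x ∉ S → ∀ (E : Matrix d d ℚ) (V : ℕ → Submodule ℂ (d → ℂ)),
          FibreC F lev P w x E V → FirstKind E (F.Mo P) → TorusIn w V (F.Mo P) →
          ∀ (K : Type u) [Field K] [CharZero K], mtGroup w V K = GmM (F.Mo P) K) ∧
        ∀ ρ : (ℓ : ℕ) → [Fact ℓ.Prime] → GT →* GL d ℚ_[ℓ],
          (∀ (ℓ : ℕ) [Fact ℓ.Prime], Continuous (ρ ℓ)) →
          ∃ (T : Set QB) (N : ℕ → ℕ),
            (∃ (Y : ℕ → ℕ → ℝ) (Y' : (k : Type) → [Field k] → [NumberField k] → ℕ → ℝ),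
              FewC T (fun _ _ => 1 / 5) Y Y') ∧
            ∀ (ℓ : ℕ) [Fact ℓ.Prime] (x : QB), x ∉ T → (∃ e : QB →+* ℂ, (N ℓ : ℝ) ≤ ‖e x‖) →
            ∀ ρx : Stab x →* GL d ℚ_[ℓ], SpecializesAt (ρ ℓ) x ρx →
            ∀ e : QB →+* ℂ, e x ∉ S → ∀ (E : Matrix d d ℚ) (V : ℕ → Submodule ℂ (d → ℂ)),
            FibreC F lev P w (e x) E V → TorusIn w V (F.Mo P) → GeoN (F.Mo P) E w V (ρ ℓ) →
            ∀ (K : Type u) [Field K] [CharZero K] [Algebra ℚ_[ℓ] K],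
              monodromy ρx K = mtGroup w V K

theorem n4z (h : N1zStmt.{u}) : N4zStmt.{u} := by
  refine ⟨h.1, fun n => ?_⟩
  obtain ⟨c, a, δ, Z, Z', hδ, h⟩ := h.2 n
  refine ⟨c, a, δ, Z, Z', hδ, fun d _ _ F B hB w lev hw P hP hI => ?_⟩
  obtain ⟨S, hwin, hct, h1, h2⟩ := h d F B hB w lev hw P hP hI
  have hMul : ∀ a ∈ F.Mo P, ∀ b ∈ F.Mo P, a * b ∈ F.Mo P := fun a ha b hb =>
    MT100D.H97.Mo_mul MT100D.H97.bas F hP ha hb
  refine ⟨S, hwin, hct, ?_, fun ρ hρ => ?_⟩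
  · intro x hx E V hF hFK hT K _ _
    rw [(h1 x hx E V hF).1 K]
    exact (MT100D.H97.ladm.{u} d (F.Mo P) hMul hI w E V hw hF.1 hF.2.1 hFK hT).1 K
  · obtain ⟨T, N, hT, h3⟩ := h2 ρ hρ
    refine ⟨T, N, hT, fun ℓ _ x hxT hN ρx hsp e he E V hF hTT hgeo K _ _ _ => ?_⟩
    rw [(h3 ℓ x hxT hN ρx hsp K).1, (h1 _ he E V hF).1 K]
    exact MT100E.H97.ladE' d (F.Mo P) hMul hI w E V hw hF.1 hF.2.1 hTT ℓ GT (ρ ℓ) (hρ ℓ) hgeo K

end Pool.Agent.PSV.H88
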