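import Pool.Agent.Helper88_PSV.All
import Pool.Agent.Helper88_PSV.N4z
import Pool.Agent.Helper39_HUK.FNA
import Pool.Agent.Helper39_HUK.SQA
import Pool.Agent.Helper39_HUK.HCA
import Pool.Agent.Helper31_HUK.WIA
import Pool.Agent.Helper56_HUK.CNV
import Pool.Agent.Helper64_HUK.CLU
import Pool.Agent.Helper21_HUK.NRU
import Pool.Agent.Helper10_HUK.RTV
import Pool.Agent.Helper52_HUK.SNV
import Pool.Agent.Helper22_HUK.NHB
import Pool.Agent.Helper5_HUK.BRT
import Pool.Agent.Helper82_HUK.CSN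
import Pool.Agent.Helper85_HUK.STI
import Pool.Agent.Helper94_HUK.CTP
import Pool.Agent.Helper68_HUK.REU
import Pool.Agent.Helper13_HUK.SCA
import Pool.Agent.Helper84_HUK.SDA
import Pool.Agent.Helper81_HUK.HBC
import Pool.Agent.Helper56_HUK.HOI

/-! PSV: assembly of N1Z and N4Z from the rows ADP and SVA. -/

set_option autoImplicit false

namespace Pool.Agent.PSV.H88

open Pool.Agent.HIK Pool.Agent.MTN Pool.Agent.MT100

universe u

theorem cnvA : HUK.CnvStmt :=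
  HUK.H56.cnv (HUK.H64.clu HUK.H21.nru) HUK.H10.rtv HUK.H52.snv HUK.nhb HUK.H5.brt
theorem hca0 (adp : HUK.AdpStmt) : HUK.HcaStmt :=
  HUK.H39H.hca HUK.H82.csn HUK.H85.sti HUK.H94.ctp HUK.H68.reu (HUK.H31.wia adp cnvA) HUK.H13.sca
theorem fna0 (sva : HUK.SvaStmt) : HUK.FnaStmt.{u} := HUK.H39F.fna (HUK.H39Q.sqa sva)
theorem n1z0 (sva : HUK.SvaStmt) : N1zStmt.{u} :=
  n1z maqA (H56.fpq H6.ace) H60.szm (fna0 sva) HUK.H84.sda HUK.H81.hbc
theorem n4z0 (sva : HUK.SvaStmt) : N4zStmt.{u} := n4z (n1z0 sva)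

end Pool.Agent.PSV.H88
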