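import Pool.Agent.Helper88_PSV.Seg
import Pool.Agent.Helper62_HUK.SPM
import Pool.Agent.Helper40_HUK.SPK

/-! PSV / HUK: counting from segments, with explicit constants (explicit versions of SPM and SPK). -/

set_option autoImplicit false

namespace Pool.Agent.PSV.H88

open Polynomial NumberField Pool.Agent.MTN Pool.Agent.HUK Pool.Agent.HIK Pool.Agent.HUK.H62

/-- all the algebraic integers of degree at most `m` (edit of `Pool.Agent.HUK.H62.spm`) -/
theorem cntQ (hHbc : HbcStmt) (E : Type) [Field E] [CharZero E] (m : ℕ) : ∃ C₁ : ℕ,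
    ∀ (S : Set E) (D δ : ℝ), 1 ≤ D →
    (∀ X : ℕ, 1 ≤ X → ∀ x ∈ Ip E m (X ^ (3 * m)),
      (Nat.card {κ : ℕ // κ < X ∧ x + κ ∈ S} : ℝ) ≤ D * (X : ℝ) ^ (1 - δ)) →
    ∀ X : ℕ, 1 ≤ X → (Nat.card {x : E // x ∈ S ∧ x ∈ Hb E m X} : ℝ) ≤
      C₁ * D * (X : ℝ) ^ (((m * (m + 1) / 2 : ℕ) : ℝ) - δ) := by
  classical
  obtain ⟨C₁, hC₁⟩ := hHbc E m
  set e : ℕ := m * (m + 1) / 2 with he
  refine ⟨C₁ + C₁ * 2 ^ e, ?_⟩
  intro S D δ hD hS X hX
  have hX0 : (0 : ℝ) < X := by exact_mod_cast hX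
  have hfin := (hC₁ X hX).1
  have hsub : Nat.card {x : E // x ∈ S ∧ x ∈ Hb E m X} ≤ Nat.card (Hb E m X) := by
    have : Finite (Hb E m X) := hfin
    exact Nat.card_le_card_of_injective
      (fun x : {x : E // x ∈ S ∧ x ∈ Hb E m X} => (⟨x.1, x.2.2⟩ : Hb E m X))
      (fun a b h => Subtype.ext (congrArg (fun t : Hb E m X => (t : E)) h))
  have hC₁0 : (0 : ℝ) ≤ C₁ := Nat.cast_nonneg _
  rcases Nat.lt_or_ge X 2 with h2 | h2
  · have hX1 : X = 1 := by omega
    subst hX1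
    have h3 := (hC₁ 1 le_rfl).2
    have h4 : (Nat.card {x : E // x ∈ S ∧ x ∈ Hb E m 1} : ℝ) ≤ Nat.card (Hb E m 1) := by
      exact_mod_cast hsub
    rw [Nat.cast_one, Real.one_rpow, mul_one]
    rw [Nat.cast_one, one_pow, mul_one] at h3
    push_cast
    have h5 : (C₁ : ℝ) * 1 ≤ (C₁ + C₁ * 2 ^ e) * D :=
      mul_le_mul (le_add_of_nonneg_right (by positivity)) hD (by norm_num) (by positivity)
    linarith
  · have hfin2 := (hC₁ (2 * X) (by omega)).1
    let U : Finset E := hfin2.toFinset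
    let T : Finset E := hfin.toFinset.filter (fun x => x ∈ S)
    have hT : Nat.card {x : E // x ∈ S ∧ x ∈ Hb E m X} = T.card := by
      apply Nat.subtype_card
      intro x
      simp only [T, Finset.mem_filter, Set.Finite.mem_toFinset]
      exact and_comm
    have hU : Nat.card (Hb E m (2 * X)) = U.card := by
      apply Nat.subtype_card
      intro x
      simp only [U, Set.Finite.mem_toFinset]
    let W : E → Finset ℕ := fun w => (Finset.range X).filter (fun κ => w + κ ∈ S)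
    have hW : ∀ w ∈ U, ((W w).card : ℝ) ≤ D * (X : ℝ) ^ (1 - δ) := by
      intro w hw
      have hw' : w ∈ Hb E m (2 * X) := by
        simpa only [U, Set.Finite.mem_toFinset] using hw
      have h3 := hS X hX w (hb_ip h2 hw')
      have h4 : Nat.card {κ : ℕ // κ < X ∧ w + κ ∈ S} = (W w).card := by
        apply Nat.subtype_card
        intro κ
        simp only [W, Finset.mem_filter, Finset.mem_range]
      rw [h4] at h3
      exact h3
    have hcard : (T ×ˢ Finset.range X).card ≤ (U.sigma W).card := by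
      apply Finset.card_le_card_of_injOn (fun t : E × ℕ => (⟨t.1 - t.2, t.2⟩ : Σ _ : E, ℕ))
      · rintro ⟨x, κ⟩ hxκ
        have h5 := Finset.mem_product.1 (Finset.mem_coe.1 hxκ)
        have h6 : x ∈ hfin.toFinset ∧ x ∈ S := Finset.mem_filter.1 h5.1
        have h7 : κ < X := Finset.mem_range.1 h5.2
        have h8 : x ∈ Hb E m X := by simpa only [Set.Finite.mem_toFinset] using h6.1
        apply Finset.mem_coe.2
        rw [Finset.mem_sigma]
        constructor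
        · change x - (κ : E) ∈ hfin2.toFinset
          rw [Set.Finite.mem_toFinset]
          exact hb_sub h7.le h8
        · change κ ∈ (Finset.range X).filter (fun j : ℕ => x - (κ : E) + (j : E) ∈ S)
          rw [Finset.mem_filter, sub_add_cancel]
          exact ⟨Finset.mem_range.2 h7, h6.2⟩
      · rintro ⟨x, κ⟩ _ ⟨y, j⟩ _ h
        have h1 : x - (κ : E) = y - (j : E) := congrArg Sigma.fst h
        have h2 : κ = j := by
          have := (Sigma.mk.inj_iff.1 h).2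
          exact eq_of_heq this
        subst h2
        have h3 : x = y := sub_left_injective h1
        rw [h3]
    rw [Finset.card_product, Finset.card_range, Finset.card_sigma] at hcard
    have h9 : (T.card : ℝ) * X ≤ U.card * (D * (X : ℝ) ^ (1 - δ)) := by
      calc (T.card : ℝ) * X = ((T.card * X : ℕ) : ℝ) := by push_cast; ring
        _ ≤ ((∑ w ∈ U, (W w).card : ℕ) : ℝ) := by exact_mod_cast hcard
        _ = ∑ w ∈ U, ((W w).card : ℝ) := by push_cast; rfl
        _ ≤ ∑ w ∈ U, D * (X : ℝ) ^ (1 - δ) := Finset.sum_le_sum hW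
        _ = U.card * (D * (X : ℝ) ^ (1 - δ)) := by rw [Finset.sum_const, nsmul_eq_mul]
    have h10 : (U.card : ℝ) ≤ C₁ * (2 ^ e * (X : ℝ) ^ e) := by
      have := (hC₁ (2 * X) (by omega)).2
      rw [hU] at this
      push_cast at this
      rw [mul_pow] at this
      exact this
    have h11 : (0 : ℝ) ≤ D * (X : ℝ) ^ (1 - δ) := by positivity
    have h12 : (T.card : ℝ) * X ≤ C₁ * (2 ^ e * (X : ℝ) ^ e) * (D * (X : ℝ) ^ (1 - δ)) :=
      h9.trans (mul_le_mul_of_nonneg_right h10 h11)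
    have h13 : (X : ℝ) ^ (1 - δ) = X * (X : ℝ) ^ (-δ) := by
      rw [sub_eq_add_neg, Real.rpow_add hX0, Real.rpow_one]
    have h14 : (X : ℝ) ^ ((e : ℝ) - δ) = (X : ℝ) ^ e * (X : ℝ) ^ (-δ) := by
      rw [sub_eq_add_neg, Real.rpow_add hX0, Real.rpow_natCast]
    rw [hT, h14]
    have h15 : (T.card : ℝ) ≤ C₁ * 2 ^ e * D * ((X : ℝ) ^ e * (X : ℝ) ^ (-δ)) := by
      rw [h13] at h12
      have : (T.card : ℝ) * X ≤ C₁ * 2 ^ e * D * ((X : ℝ) ^ e * (X : ℝ) ^ (-δ)) * X := by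
        calc (T.card : ℝ) * X ≤ _ := h12
          _ = C₁ * 2 ^ e * D * ((X : ℝ) ^ e * (X : ℝ) ^ (-δ)) * X := by ring
      exact le_of_mul_le_mul_right this hX0
    have h16 : (0 : ℝ) ≤ (X : ℝ) ^ e * (X : ℝ) ^ (-δ) := by positivity
    push_cast
    calc (T.card : ℝ) ≤ C₁ * 2 ^ e * D * ((X : ℝ) ^ e * (X : ℝ) ^ (-δ)) := h15
      _ ≤ (C₁ + C₁ * 2 ^ e) * D * ((X : ℝ) ^ e * (X : ℝ) ^ (-δ)) := by
          apply mul_le_mul_of_nonneg_right _ h16
          apply mul_le_mul_of_nonneg_right _ (by linarith)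
          linarith

/-- the ring of integers of a number field (edit of `Pool.Agent.HUK.H40.spk`) -/
theorem cntK {E : Type} [Field E] [CharZero E] {S : Set E} {δ : ℝ} (hδ : 0 ≤ δ) (hδ1 : δ ≤ 1)
    (hS : Sps E δ S) (k : Type) [Field k] [NumberField k] (σ : k →+* E) :
    HIP.PZ k δ {a : 𝓞 k | σ a ∈ S} := by
  obtain ⟨C, hC⟩ := hS (Module.finrank ℚ k) (3 * Module.finrank ℚ k)
  refine HIP.H21.avz boxA k {a : 𝓞 k | σ a ∈ S} δ hδ hδ1 ⟨C, 2, fun X hX a0 ha0 => ?_⟩
  have h1 := hC X (by omega) (σ a0) (HUK.H40.mem_Ip σ a0 X hX ha0)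
  have h2 : Nat.card {j : ℕ // j < X ∧ a0 + (j : 𝓞 k) ∈ {a : 𝓞 k | σ a ∈ S}} =
      Nat.card {κ : ℕ // κ < X ∧ σ a0 + (κ : E) ∈ S} := by
    congr 1
    have h3 : ∀ j : ℕ, (j < X ∧ a0 + (j : 𝓞 k) ∈ {a : 𝓞 k | σ a ∈ S}) ↔
        (j < X ∧ σ a0 + (j : E) ∈ S) := by
      intro j
      have h4 : σ ((a0 + (j : 𝓞 k) : 𝓞 k) : k) = σ a0 + (j : E) := by
        push_cast
        rw [map_add, map_natCast]
      change (j < X ∧ σ ((a0 + (j : 𝓞 k) : 𝓞 k) : k) ∈ S) ↔ _
      rw [h4]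
    exact congrArg Subtype (funext fun j => propext (h3 j))
  rw [h2]
  exact h1

end Pool.Agent.PSV.H88
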