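import Pool.Agent.PSV.StmtsF
import Pool.Agent.HIP.Stmts

/-!
# Squad PSV: the final form of N1 (uniform in the family, power saving)
-/

set_option autoImplicit false

namespace Pool.Agent.PSV.H88

open Matrix Polynomial NumberField Pool.Agent.MT100 Pool.Agent.MT100G Pool.Agent.MT100A
  Pool.Agent.MT100D Pool.Agent.Helper78_MT Pool.Agent.MTL Pool.Agent.MTN Pool.Agent.MTN.H53
  Pool.Agent.HIK Pool.Agent.PSV

universe u

/-- N1U: the uniform theorem with power saving. -/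
def N1uStmt : Prop :=
  (∀ (d : Type) [Fintype d] [DecidableEq d] (F : Family d), ∃ n B : ℕ,
    Siz n B F.H F.K F.N F.δ F.q F.B) ∧
  ∀ n : ℕ, ∃ (c : ℕ) (a : ℕ → ℕ → ℕ) (δ : ℕ → ℝ)
    (Ck : (k : Type) → [Field k] → [NumberField k] → ℕ), (∀ m, 0 < δ m) ∧
    ∀ (d : Type) [Fintype d] [DecidableEq d] (F : Family d) (B : ℕ),
    Siz n B F.H F.K F.N F.δ F.q F.B →
    ∀ (w : ℕ) (lev : d → ℕ), 1 ≤ w → ∀ P : Matrix d d ℂ, IsUnit P.det → F.IntM P →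
      ∃ S : Set ℂ,
        (∀ (m A K : ℕ), ∀ x ∈ Pts m A, ((B * (K + 1) : ℕ) : ℝ) ^ a m A ≤ ‖x‖ →
          Nat.card {κ : ℕ // κ < K ∧ x - κ ∈ S} ≤ B ^ c) ∧
        (∀ (k : Type) [Field k] [NumberField k] (σ : k →+* ℂ) (X : ℕ), 1 ≤ X →
          (Nat.card {x : 𝓞 k // σ x ∈ S ∧ house (x : k) ≤ X} : ℝ) ≤
            Ck k * (B : ℝ) ^ c *
              (X : ℝ) ^ ((Module.finrank ℚ k : ℝ) - δ (Module.finrank ℚ k))) ∧
        (∀ x : ℂ, x ∉ S → ∀ (E : Matrix d d ℚ) (V : ℕ → Submodule ℂ (d → ℂ)),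
          FibreC F lev P w x E V →
          (∀ (K : Type u) [Field K] [CharZero K], mtGroup w V K = GenM (F.Mo P) w V K) ∧
          ∀ R : ℝ, (B : ℝ) ^ c ≤ R → R < ‖x‖ → FixedC F lev P w R →
            ∀ y : ℂ, R < ‖y‖ → ∀ (E' : Matrix d d ℚ) (V' : ℕ → Submodule ℂ (d → ℂ)),
            PolHodge w E' V' → F.HasFil lev P y V' →
            ∀ (K : Type u) [Field K] [CharZero K], mtGroup w V' K ⊆ mtGroup w V K) ∧
        ∀ ρ : (ℓ : ℕ) → [Fact ℓ.Prime] → GT →* GL d ℚ_[ℓ],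
          (∀ (ℓ : ℕ) [Fact ℓ.Prime], Continuous (ρ ℓ)) →
          ∀ (k : Type) [Field k] [NumberField k], ∃ (T : Set (𝓞 k)) (N : ℕ → ℕ),
            (∃ C : ℝ, ∀ X : ℕ, 1 ≤ X → (Nat.card {x : 𝓞 k // x ∈ T ∧ house (x : k) ≤ X} : ℝ) ≤
              C * (X : ℝ) ^ ((Module.finrank ℚ k : ℝ) - 1 / 5)) ∧
            ∀ (ℓ : ℕ) [Fact ℓ.Prime] (x : 𝓞 k), x ∉ T → (N ℓ : ℝ) ≤ house (x : k) →
            ∀ (ψ : k →+* QB) (ρx : Stab (ψ x) →* GL d ℚ_[ℓ]), SpecializesAt (ρ ℓ) (ψ x) ρx →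
            ∀ (K : Type u) [Field K] [CharZero K] [Algebra ℚ_[ℓ] K],
              monodromy ρx K = monodromy (ρ ℓ) K ∧
              ∀ e : QB →+* ℂ, e (ψ x) ∉ S →
                ∀ (E : Matrix d d ℚ) (V : ℕ → Submodule ℂ (d → ℂ)),
                FibreC F lev P w (e (ψ x)) E V →
                (monodromy ρx K = mtGroup w V K ↔ monodromy (ρ ℓ) K = GenM (F.Mo P) w V K) ∧
                ∀ R : ℝ, (B : ℝ) ^ c ≤ R → R < ‖e (ψ x)‖ → FixedC F lev P w R →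
                  ∀ y : ℂ, R < ‖y‖ → y ∉ S →
                  ∀ (E' : Matrix d d ℚ) (V' : ℕ → Submodule ℂ (d → ℂ)), FibreC F lev P w y E' V' →
                  (monodromy ρx K = mtGroup w V K ↔ monodromy (ρ ℓ) K = mtGroup w V' K)

theorem n1u (hM : MaqStmt.{u}) (hW : WdqStmt) (hF : FpqStmt.{u}) (hZ : SzmStmt)
    (hL : HIP.FniStmt.{u}) (hC : HIP.PzcStmt) (hPid : HIP.PzdStmt) : N1uStmt.{u} := by
  classical
  refine ⟨hZ.2, fun n => ?_⟩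
  obtain ⟨c1, a1, h1⟩ := hM n
  obtain ⟨c2, h2⟩ := hF n
  -- the constants of the number fields
  have hk : ∀ (k : Type) [Field k] [NumberField k], ∃ Ck : ℕ,
      ∀ (σ : k →+* ℂ) (S : Set ℂ) (C B : ℕ), 1 ≤ B → 1 ≤ C →
      (∀ K : ℕ, ∀ x ∈ Pts (Module.finrank ℚ k) (2 * Module.finrank ℚ k + 2),
        ((B * (K + 1) : ℕ) : ℝ) ^ (a1 (Module.finrank ℚ k) (2 * Module.finrank ℚ k + 2) + 1) ≤ ‖x‖ →
        Nat.card {κ : ℕ // κ < K ∧ x - κ ∈ S} ≤ C) →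
      ∀ X : ℕ, 1 ≤ X → (Nat.card {x : 𝓞 k // σ x ∈ S ∧ house (x : k) ≤ X} : ℝ) ≤
        Ck * C * B * (X : ℝ) ^ ((Module.finrank ℚ k : ℝ) -
          1 / (2 * ((a1 (Module.finrank ℚ k) (2 * Module.finrank ℚ k + 2) + 1 : ℕ) : ℝ))) := by
    intro k _ _
    exact hW k _ (Nat.succ_le_succ (Nat.zero_le _))
  refine ⟨c1 + 1 + c2, fun m A => a1 m A + 1,
    fun m => 1 / (2 * ((a1 m (2 * m + 2) + 1 : ℕ) : ℝ)),
    fun k _ _ => Classical.choose (hk k), fun m => by positivity, ?_⟩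
  intro d _ _ F B hFB w lev hw P hP hInt
  have hB2 : 2 ≤ B := hFB.two
  have hB1 : 1 ≤ B := by omega
  have hBR : (1 : ℝ) ≤ B := by exact_mod_cast hB1
  obtain ⟨S, hwin, hS⟩ := h1 d F B hFB w lev hw P hP hInt
  have hcmp : (B : ℝ) ^ c2 ≤ (B : ℝ) ^ (c1 + 1 + c2) := pow_le_pow_right₀ hBR (by omega)
  have hwin' : ∀ (m A K : ℕ), ∀ x ∈ Pts m A, ((B * (K + 1) : ℕ) : ℝ) ^ (a1 m A + 1) ≤ ‖x‖ →
      Nat.card {κ : ℕ // κ < K ∧ x - κ ∈ S} ≤ B ^ c1 := by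
    intro m A K x hx hxn
    refine hwin m A K x hx (le_trans ?_ hxn)
    have h3 : (1 : ℝ) ≤ ((B * (K + 1) : ℕ) : ℝ) := by
      have h4 : 1 ≤ B * (K + 1) := Nat.mul_pos hB1 (Nat.succ_pos K)
      exact_mod_cast h4
    exact pow_le_pow_right₀ h3 (Nat.le_succ _)
  have hside : ∀ x : ℂ, x ∉ S → HSide.{u} F lev P w ((B : ℝ) ^ (c1 + 1 + c2)) x := by
    intro x hx E V hV
    refine ⟨hS x hx E V hV, fun R hR hRx hfix y hy E' V' hV' hFil' => ?_⟩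
    exact h2 d F B hFB w lev hw P R hP hInt (hcmp.trans hR) hfix x y hRx hy E E' V V' hV
      (hS x hx E V hV) hV' hFil'
  refine ⟨S, ?_, ?_, hside, ?_⟩
  · intro m A K x hx hxn
    exact (hwin' m A K x hx hxn).trans (Nat.pow_le_pow_right hB1 (by omega))
  · intro k _ _ σ X hX
    have h3 := Classical.choose_spec (hk k) σ S (B ^ c1) B hB1 (Nat.one_le_pow _ _ hB1)
      (fun K x hx hxn => hwin' _ _ K x hx hxn) X hX
    refine h3.trans ?_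
    have h5 : (0 : ℝ) ≤ (X : ℝ) ^ ((Module.finrank ℚ k : ℝ) -
          1 / (2 * ((a1 (Module.finrank ℚ k) (2 * Module.finrank ℚ k + 2) + 1 : ℕ) : ℝ))) :=
      Real.rpow_nonneg (Nat.cast_nonneg _) _
    refine mul_le_mul_of_nonneg_right ?_ h5
    rw [mul_assoc]
    refine mul_le_mul_of_nonneg_left ?_ (Nat.cast_nonneg _)
    push_cast
    rw [← pow_succ]
    exact pow_le_pow_right₀ hBR (by omega)
  · intro ρ hρ k _ _
    have hex : ∀ ℓ : ℕ, ∃ T : Set (𝓞 k), HIP.PZ k (1 / 4) T ∧ ∀ (hℓ : Fact ℓ.Prime), ∀ x ∉ T,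
        ∀ (ψ : k →+* QB) (ρx : Stab (ψ x) →* GL d ℚ_[ℓ]), SpecializesAt (ρ ℓ) (ψ x) ρx →
          ∀ (K : Type u) [Field K] [Algebra ℚ_[ℓ] K], monodromy ρx K = monodromy (ρ ℓ) K := by
      intro ℓ
      by_cases hℓ : Nat.Prime ℓ
      · have : Fact ℓ.Prime := ⟨hℓ⟩
        obtain ⟨T, hT, h3⟩ := hL k d ℓ (ρ ℓ) (hρ ℓ)
        exact ⟨T, hT, fun _ => h3⟩
      · exact ⟨∅, (hC k (1 / 4)).2.2.1 (by norm_num) ∅ Set.finite_empty,
          fun h => absurd h.out hℓ⟩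
    choose T0 hT hT1 using hex
    obtain ⟨T, N, hT', hN⟩ := hPid k (1 / 4) (1 / 5) (by norm_num) T0 hT
    refine ⟨T, N, hT', ?_⟩
    intro ℓ hℓ x hx hNx ψ ρx hsp K _ _ _
    have hx0 : x ∉ T0 ℓ := fun h => hx (hN ℓ x h hNx)
    have hmon := hT1 ℓ hℓ x hx0 ψ ρx hsp K
    refine ⟨hmon, fun e he E V hV => ?_⟩
    have h3 := (hside _ he E V hV).1 K
    refine ⟨by rw [hmon, h3], fun R hR hRx hfix y hy hyS E' V' hV' => ?_⟩
    have h4 := (hside _ he E V hV).2 R hR hRx hfix y hy E' V' hV'.1 hV'.2.2 K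
    have h5 := (hside y hyS E' V' hV').2 R hR hy hfix _ hRx E V hV.1 hV.2.2 K
    rw [hmon, Set.Subset.antisymm h5 h4]

end Pool.Agent.PSV.H88
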