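import Pool.Agent.PSV.StmtsF
import Pool.Agent.HUK.StmtsA
import Pool.Agent.Helper88_PSV.Cnt

/-!
# Squad PSV: the final form of N1 (uniform in the family, power saving, all number fields at once)
-/

set_option autoImplicit false

namespace Pool.Agent.PSV.H88

open Matrix Polynomial NumberField Pool.Agent.MT100 Pool.Agent.MT100G Pool.Agent.MT100A
  Pool.Agent.MT100D Pool.Agent.Helper78_MT Pool.Agent.MTL Pool.Agent.MTN Pool.Agent.MTN.H53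
  Pool.Agent.HIK Pool.Agent.PSV

universe u

/-- the bound of Cauchy for all algebraic numbers -/
theorem cauA (E : Type) [Field E] (e : E →+* ℂ) (m B : ℕ) (a : E) (ha : a ∈ HUK.Ap E m B) :
    ‖e a‖ ≤ B + 1 := by
  obtain ⟨p, hp, _, hB, hz⟩ := ha
  have h1 : aeval (e a) p = 0 := by
    have h2 := congrArg e hz
    rw [map_zero] at h2
    rw [← h2]
    rw [aeval_def, aeval_def, hom_eval₂]
    congr 1
    exact Subsingleton.elim _ _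
  set q : ℂ[X] := p.map (Int.castRingHom ℂ) with hq
  have hq0 : q ≠ 0 := by
    rw [hq]
    exact (Polynomial.map_ne_zero_iff (RingHom.injective_int _)).mpr hp
  have hroot : q.IsRoot (e a) := by
    rw [IsRoot.def, hq, eval_map]
    rw [aeval_def] at h1
    exact h1
  have h3 := hroot.norm_lt_cauchyBound hq0
  have hlc : (1 : ℝ) ≤ ‖q.leadingCoeff‖ := by
    rw [hq, leadingCoeff_map_of_injective (RingHom.injective_int _), eq_intCast,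
      Complex.norm_intCast]
    have h5 : p.leadingCoeff ≠ 0 := leadingCoeff_ne_zero.2 hp
    exact_mod_cast Int.one_le_abs h5
  have h4 : cauchyBound q ≤ (B : NNReal) + 1 := by
    unfold cauchyBound
    gcongr
    refine (div_le_self (by positivity) (by exact_mod_cast hlc)).trans ?_
    refine Finset.sup_le ?_
    intro i _
    rw [hq, coeff_map]
    have h5 := hB i
    have h6 : ‖(Int.castRingHom ℂ) (p.coeff i)‖ ≤ (B : ℝ) := by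
      rw [eq_intCast, Complex.norm_intCast]
      exact_mod_cast h5
    exact_mod_cast h6
  have h7 : ‖e a‖₊ ≤ (B : NNReal) + 1 := (h3.trans_le h4).le
  exact_mod_cast h7

/-- N1X: the uniform theorem with power saving, all number fields at once. -/
def N1xStmt : Prop :=
  (∀ (d : Type) [Fintype d] [DecidableEq d] (F : Family d), ∃ n B : ℕ,
    Siz n B F.H F.K F.N F.δ F.q F.B) ∧
  ∀ n : ℕ, ∃ (c : ℕ) (a : ℕ → ℕ → ℕ) (δ : ℕ → ℝ) (Cm : ℕ → ℕ)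
    (Ck : (k : Type) → [Field k] → [NumberField k] → ℕ), (∀ m, 0 < δ m) ∧
    ∀ (d : Type) [Fintype d] [DecidableEq d] (F : Family d) (B : ℕ),
    Siz n B F.H F.K F.N F.δ F.q F.B →
    ∀ (w : ℕ) (lev : d → ℕ), 1 ≤ w → ∀ P : Matrix d d ℂ, IsUnit P.det → F.IntM P →
      ∃ S : Set ℂ,
        (∀ (m A K : ℕ), ∀ x ∈ Pts m A, ((B * (K + 1) : ℕ) : ℝ) ^ a m A ≤ ‖x‖ →
          Nat.card {κ : ℕ // κ < K ∧ x - κ ∈ S} ≤ B ^ c) ∧
        (∀ m X : ℕ, 1 ≤ X → (Nat.card {x : ℂ // x ∈ S ∧ x ∈ HUK.Hb ℂ m X} : ℝ) ≤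
          Cm m * (B : ℝ) ^ c * (X : ℝ) ^ (((m * (m + 1) / 2 : ℕ) : ℝ) - δ m)) ∧
        (∀ (k : Type) [Field k] [NumberField k] (σ : k →+* ℂ) (X : ℕ), 1 ≤ X →
          (Nat.card {x : 𝓞 k // σ x ∈ S ∧ house (x : k) ≤ X} : ℝ) ≤
            Ck k * (B : ℝ) ^ c *
              (X : ℝ) ^ ((Module.finrank ℚ k : ℝ) - δ (Module.finrank ℚ k))) ∧
        (∀ x : ℂ, x ∉ S → ∀ (E : Matrix d d ℚ) (V : ℕ → Submodule ℂ (d → ℂ)),
          FibreC F lev P w x E V →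
          (∀ (K : Type u) [Field K] [CharZero K], mtGroup w V K = GenM (F.Mo P) w V K) ∧
          ∀ R : ℝ, (B : ℝ) ^ c ≤ R → R < ‖x‖ → FixedC F lev P w R →
            ∀ y : ℂ, R < ‖y‖ → ∀ (E' : Matrix d d ℚ) (V' : ℕ → Submodule ℂ (d → ℂ)),
            PolHodge w E' V' → F.HasFil lev P y V' →
            ∀ (K : Type u) [Field K] [CharZero K], mtGroup w V' K ⊆ mtGroup w V K) ∧
        ∀ ρ : (ℓ : ℕ) → [Fact ℓ.Prime] → GT →* GL d ℚ_[ℓ],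
          (∀ (ℓ : ℕ) [Fact ℓ.Prime], Continuous (ρ ℓ)) →
          ∃ (T : Set QB) (N : ℕ → ℕ),
            (∀ m A : ℕ, ∃ C : ℝ, ∀ X : ℕ, 1 ≤ X → ∀ x ∈ HUK.Ap QB m (X ^ A),
              (Nat.card {κ : ℕ // κ < X ∧ x + κ ∈ T} : ℝ) ≤ C * (X : ℝ) ^ (4 / 5 : ℝ)) ∧
            (∀ m : ℕ, ∃ C : ℝ, ∀ X : ℕ, 1 ≤ X →
              (Nat.card {x : QB // x ∈ T ∧ x ∈ HUK.Hb QB m X} : ℝ) ≤
                C * (X : ℝ) ^ (((m * (m + 1) / 2 : ℕ) : ℝ) - 1 / 5)) ∧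
            (∀ (k : Type) [Field k] [NumberField k] (ψ : k →+* QB), ∃ C : ℝ, ∀ X : ℕ, 1 ≤ X →
              (Nat.card {x : 𝓞 k // ψ x ∈ T ∧ house (x : k) ≤ X} : ℝ) ≤
                C * (X : ℝ) ^ ((Module.finrank ℚ k : ℝ) - 1 / 5)) ∧
            ∀ (ℓ : ℕ) [Fact ℓ.Prime] (x : QB), x ∉ T → (∃ e : QB →+* ℂ, (N ℓ : ℝ) ≤ ‖e x‖) →
            ∀ ρx : Stab x →* GL d ℚ_[ℓ], SpecializesAt (ρ ℓ) x ρx →
            ∀ (K : Type u) [Field K] [CharZero K] [Algebra ℚ_[ℓ] K],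
              monodromy ρx K = monodromy (ρ ℓ) K ∧
              ∀ e : QB →+* ℂ, e x ∉ S →
                ∀ (E : Matrix d d ℚ) (V : ℕ → Submodule ℂ (d → ℂ)),
                FibreC F lev P w (e x) E V →
                (monodromy ρx K = mtGroup w V K ↔ monodromy (ρ ℓ) K = GenM (F.Mo P) w V K) ∧
                ∀ R : ℝ, (B : ℝ) ^ c ≤ R → R < ‖e x‖ → FixedC F lev P w R →
                  ∀ y : ℂ, R < ‖y‖ → y ∉ S →
                  ∀ (E' : Matrix d d ℚ) (V' : ℕ → Submodule ℂ (d → ℂ)), FibreC F lev P w y E' V' →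
                  (monodromy ρx K = mtGroup w V K ↔ monodromy (ρ ℓ) K = mtGroup w V' K)

theorem n1x (hM : MaqStmt.{u}) (hW : WdqStmt) (hF : FpqStmt.{u}) (hZ : SzmStmt)
    (hL : HUK.FnaStmt.{u}) (hSpd : HUK.SdaStmt) (hHbc : HUK.HbcStmt) : N1xStmt.{u} := by
  classical
  refine ⟨hZ.2, fun n => ?_⟩
  obtain ⟨c1, a1, h1⟩ := hM n
  obtain ⟨c2, h2⟩ := hF n
  -- the constants of the number fields
  have hk : ∀ (k : Type) [Field k] [NumberField k], ∃ Ck : ℕ,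
      ∀ (σ : k →+* ℂ) (S : Set ℂ) (C B : ℕ), 1 ≤ B → 1 ≤ C →
      (∀ K : ℕ, ∀ x ∈ Pts (Module.finrank ℚ k) (2 * Module.finrank ℚ k + 2),
        ((B * (K + 1) : ℕ) : ℝ) ^ (a1 (Module.finrank ℚ k) (2 * Module.finrank ℚ k + 2) + 1) ≤ ‖x‖ →
        Nat.card {κ : ℕ // κ < K ∧ x - κ ∈ S} ≤ C) →
      ∀ X : ℕ, 1 ≤ X → (Nat.card {x : 𝓞 k // σ x ∈ S ∧ house (x : k) ≤ X} : ℝ) ≤
        Ck * C * B * (X : ℝ) ^ ((Module.finrank ℚ k : ℝ) -
          1 / (2 * ((a1 (Module.finrank ℚ k) (2 * Module.finrank ℚ k + 2) + 1 : ℕ) : ℝ))) := by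
    intro k _ _
    exact hW k _ (Nat.succ_le_succ (Nat.zero_le _))
  -- the constants of the degrees
  have hm : ∀ m : ℕ, ∃ C0 : ℕ, ∀ (S : Set ℂ) (C B : ℕ), 1 ≤ B → 1 ≤ C →
      (∀ K : ℕ, ∀ x ∈ Pts m (2 * (m + 3 * m) + 1),
        ((B * (K + 1) : ℕ) : ℝ) ^ (a1 m (2 * (m + 3 * m) + 1) + 1) ≤ ‖x‖ →
        Nat.card {κ : ℕ // κ < K ∧ x - κ ∈ S} ≤ C) →
      ∀ X : ℕ, 1 ≤ X → (Nat.card {x : ℂ // x ∈ S ∧ x ∈ HUK.Hb ℂ m X} : ℝ) ≤
        C0 * C * B * (X : ℝ) ^ (((m * (m + 1) / 2 : ℕ) : ℝ) -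
          1 / (2 * ((a1 m (2 * (m + 3 * m) + 1) + 1 : ℕ) : ℝ))) := by
    intro m
    obtain ⟨Cs, hCs⟩ := segH m (3 * m) (a1 m (2 * (m + 3 * m) + 1) + 1)
      (Nat.succ_le_succ (Nat.zero_le _))
    obtain ⟨Cc, hCc⟩ := cntQ hHbc ℂ m
    refine ⟨Cc * (Cs + 1), fun S C B hB hC hwin X hX => ?_⟩
    have hBr : (1 : ℝ) ≤ B := by exact_mod_cast hB
    have hCr : (1 : ℝ) ≤ C := by exact_mod_cast hC
    have hCs0 : (0 : ℝ) ≤ Cs := Nat.cast_nonneg _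
    have h3 : (1 : ℝ) ≤ (Cs + 1) * C * B :=
      one_le_mul_of_one_le_of_one_le
        (one_le_mul_of_one_le_of_one_le (by linarith) hCr) hBr
    refine (hCc S ((Cs + 1) * C * B) (1 / (2 * ((a1 m (2 * (m + 3 * m) + 1) + 1 : ℕ) : ℝ))) h3
      (fun Y hY x hx => ?_) X hX).trans (le_of_eq ?_)
    · refine (hCs S C B hB hC hwin Y hY x hx).trans ?_
      refine mul_le_mul_of_nonneg_right ?_ (Real.rpow_nonneg (Nat.cast_nonneg _) _)
      refine mul_le_mul_of_nonneg_right ?_ (Nat.cast_nonneg _)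
      refine mul_le_mul_of_nonneg_right ?_ (Nat.cast_nonneg _)
      linarith
    · push_cast
      ring
  choose Cm hCm using hm
  obtain ⟨δ, hδ⟩ : ∃ δ : ℕ → ℝ, δ = fun m =>
      min (1 / (2 * ((a1 m (2 * m + 2) + 1 : ℕ) : ℝ)))
        (1 / (2 * ((a1 m (2 * (m + 3 * m) + 1) + 1 : ℕ) : ℝ))) := ⟨_, rfl⟩
  refine ⟨c1 + 1 + c2, fun m A => a1 m A + 1, δ, Cm, fun k _ _ => Classical.choose (hk k),
    fun m => by rw [hδ]; positivity, ?_⟩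
  intro d _ _ F B hFB w lev hw P hP hInt
  have hB2 : 2 ≤ B := hFB.two
  have hB1 : 1 ≤ B := by omega
  have hBR : (1 : ℝ) ≤ B := by exact_mod_cast hB1
  obtain ⟨S, hwin, hS⟩ := h1 d F B hFB w lev hw P hP hInt
  have hcmp : (B : ℝ) ^ c2 ≤ (B : ℝ) ^ (c1 + 1 + c2) := pow_le_pow_right₀ hBR (by omega)
  have hwin' : ∀ (m A K : ℕ), ∀ x ∈ Pts m A, ((B * (K + 1) : ℕ) : ℝ) ^ (a1 m A + 1) ≤ ‖x‖ →
      Nat.card {κ : ℕ // κ < K ∧ x - κ ∈ S} ≤ B ^ c1 := by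
    intro m A K x hx hxn
    refine hwin m A K x hx (le_trans ?_ hxn)
    have h3 : (1 : ℝ) ≤ ((B * (K + 1) : ℕ) : ℝ) := by
      have h4 : 1 ≤ B * (K + 1) := Nat.mul_pos hB1 (Nat.succ_pos K)
      exact_mod_cast h4
    exact pow_le_pow_right₀ h3 (Nat.le_succ _)
  have hside : ∀ x : ℂ, x ∉ S → HSide.{u} F lev P w ((B : ℝ) ^ (c1 + 1 + c2)) x := by
    intro x hx E V hV
    refine ⟨hS x hx E V hV, fun R hR hRx hfix y hy E' V' hV' hFil' => ?_⟩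
    exact h2 d F B hFB w lev hw P R hP hInt (hcmp.trans hR) hfix x y hRx hy E E' V V' hV
      (hS x hx E V hV) hV' hFil'
  -- comparison of the bounds
  have hup : ∀ (C0 X : ℕ) (s t : ℝ), 1 ≤ X → t ≤ s →
      (C0 : ℝ) * ((B ^ c1 : ℕ) : ℝ) * (B : ℝ) * (X : ℝ) ^ t ≤
        C0 * (B : ℝ) ^ (c1 + 1 + c2) * (X : ℝ) ^ s := by
    intro C0 X s t hX hst
    have hX1 : (1 : ℝ) ≤ X := by exact_mod_cast hX
    have h5 : (X : ℝ) ^ t ≤ (X : ℝ) ^ s := Real.rpow_le_rpow_of_exponent_le hX1 hst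
    have h6 : (C0 : ℝ) * ((B ^ c1 : ℕ) : ℝ) * (B : ℝ) ≤ C0 * (B : ℝ) ^ (c1 + 1 + c2) := by
      rw [mul_assoc]
      refine mul_le_mul_of_nonneg_left ?_ (Nat.cast_nonneg _)
      push_cast
      rw [← pow_succ]
      exact pow_le_pow_right₀ hBR (by omega)
    exact mul_le_mul h6 h5 (Real.rpow_nonneg (Nat.cast_nonneg _) _) (by positivity)
  refine ⟨S, ?_, ?_, ?_, hside, ?_⟩
  · intro m A K x hx hxn
    exact (hwin' m A K x hx hxn).trans (Nat.pow_le_pow_right hB1 (by omega))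
  · intro m X hX
    have h3 := hCm m S (B ^ c1) B hB1 (Nat.one_le_pow _ _ hB1)
      (fun K x hx hxn => hwin' _ _ K x hx hxn) X hX
    refine h3.trans (hup _ _ _ _ hX ?_)
    have h4 : δ m ≤ 1 / (2 * ((a1 m (2 * (m + 3 * m) + 1) + 1 : ℕ) : ℝ)) := by
      rw [hδ]
      exact min_le_right _ _
    linarith
  · intro k _ _ σ X hX
    have h3 := Classical.choose_spec (hk k) σ S (B ^ c1) B hB1 (Nat.one_le_pow _ _ hB1)
      (fun K x hx hxn => hwin' _ _ K x hx hxn) X hX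
    refine h3.trans (hup _ _ _ _ hX ?_)
    have h4 : δ (Module.finrank ℚ k) ≤
        1 / (2 * ((a1 (Module.finrank ℚ k) (2 * Module.finrank ℚ k + 2) + 1 : ℕ) : ℝ)) := by
      rw [hδ]
      exact min_le_left _ _
    linarith
  · intro ρ hρ
    have hex : ∀ ℓ : ℕ, ∃ T : Set QB, HUK.Spa QB (1 / 4) T ∧ ∀ (hℓ : Fact ℓ.Prime), ∀ x ∉ T,
        ∀ ρx : Stab x →* GL d ℚ_[ℓ], SpecializesAt (ρ ℓ) x ρx →
          ∀ (K : Type u) [Field K] [Algebra ℚ_[ℓ] K], monodromy ρx K = monodromy (ρ ℓ) K := by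
      intro ℓ
      by_cases hℓ : Nat.Prime ℓ
      · have : Fact ℓ.Prime := ⟨hℓ⟩
        obtain ⟨T, hT, h3⟩ := hL d ℓ (ρ ℓ) (hρ ℓ)
        exact ⟨T, hT, fun _ => h3⟩
      · refine ⟨∅, fun m A => ⟨0, fun X _ x _ => ?_⟩, fun h => absurd h.out hℓ⟩
        have h4 : IsEmpty {κ : ℕ // κ < X ∧ x + (κ : QB) ∈ (∅ : Set QB)} :=
          ⟨fun κ => κ.2.2⟩
        rw [Nat.card_of_isEmpty]
        simp
    choose T0 hT hT1 using hex
    obtain ⟨T, N, hT', hN⟩ := hSpd QB (1 / 4) (1 / 5) (by norm_num) T0 hT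
    have hT5 : ∀ m A : ℕ, ∃ C : ℝ, ∀ X : ℕ, 1 ≤ X → ∀ x ∈ HUK.Ap QB m (X ^ A),
        (Nat.card {κ : ℕ // κ < X ∧ x + κ ∈ T} : ℝ) ≤ C * (X : ℝ) ^ (1 - 1 / 5 : ℝ) := hT'
    have hIA : ∀ (m B : ℕ) (x : QB), x ∈ HUK.Ip QB m B → x ∈ HUK.Ap QB m B := by
      rintro m B x ⟨p, hp, hd, hc, hz⟩
      exact ⟨p, hp.ne_zero, hd, hc, hz⟩
    have hTs : HUK.Sps QB (1 / 5) T := fun m A => by
      obtain ⟨C, hC⟩ := hT5 m A
      exact ⟨C, fun X hX x hx => hC X hX x (hIA _ _ _ hx)⟩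
    refine ⟨T, fun ℓ => N ℓ + 2, ?_, ?_, ?_, ?_⟩
    · intro m A
      obtain ⟨C, hC⟩ := hT5 m A
      refine ⟨C, fun X hX x hx => ?_⟩
      have h3 := hC X hX x hx
      have e1 : (1 - 1 / 5 : ℝ) = 4 / 5 := by norm_num
      rw [e1] at h3
      exact h3
    · intro m
      obtain ⟨C, hC⟩ := hT5 m (3 * m)
      obtain ⟨Cc, hCc⟩ := cntQ hHbc QB m
      refine ⟨Cc * max C 1, fun X hX => hCc T (max C 1) (1 / 5) (le_max_right _ _)
        (fun Y hY x hx => (hC Y hY x (hIA _ _ _ hx)).trans ?_) X hX⟩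
      exact mul_le_mul_of_nonneg_right (le_max_left _ _) (Real.rpow_nonneg (Nat.cast_nonneg _) _)
    · intro k _ _ ψ
      exact cntK (by norm_num) (by norm_num) hTs k ψ
    intro ℓ hℓ x hx hNx ρx hsp K _ _ _
    have hx0 : x ∉ T0 ℓ := fun h => hx (hN ℓ x h fun m hm => by
      obtain ⟨e, he⟩ := hNx
      have h3 := cauA QB e m (N ℓ) x hm
      push_cast at he
      linarith)
    have hmon := hT1 ℓ hℓ x hx0 ρx hsp K
    refine ⟨hmon, fun e he E V hV => ?_⟩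
    have h3 := (hside _ he E V hV).1 K
    refine ⟨by rw [hmon, h3], fun R hR hRx hfix y hy hyS E' V' hV' => ?_⟩
    have h4 := (hside _ he E V hV).2 R hR hRx hfix y hy E' V' hV'.1 hV'.2.2 K
    have h5 := (hside y hyS E' V' hV').2 R hR hy hfix _ hRx E V hV.1 hV.2.2 K
    rw [hmon, Set.Subset.antisymm h5 h4]

end Pool.Agent.PSV.H88
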