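import Pool.Agent.HUK.Stmts
import Pool.Agent.Helper35_HIK.Avs

/-! PSV / HUK: from windows to segments, with explicit constants (explicit version of EXS). -/

set_option autoImplicit false

namespace Pool.Agent.PSV.H88

open Polynomial NumberField Pool.Agent.MTN Pool.Agent.HUK Pool.Agent.HIK

/-- a set of natural numbers which has at most `C` elements in each window of length `K` which ends
at one of its elements -/
theorem card_win {X K C : ℕ} (hK : 1 ≤ K) (G : Finset ℕ) (hG : ∀ κ ∈ G, κ < X)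
    (h : ∀ κ ∈ G, (G.filter fun j => j ≤ κ ∧ κ < j + K).card ≤ C) :
    G.card ≤ (X / K + 1) * C := by
  classical
  have h1 : G.card = ∑ b ∈ Finset.range (X / K + 1), (G.filter fun j => j / K = b).card := by
    refine Finset.card_eq_sum_card_fiberwise fun j hj => ?_
    rw [Finset.mem_coe, Finset.mem_range]
    exact Nat.lt_succ_of_le (Nat.div_le_div_right (hG j hj).le)
  rw [h1]
  refine (Finset.sum_le_card_nsmul _ _ C fun b _ => ?_).trans (by
    rw [Finset.card_range, smul_eq_mul])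
  rcases (G.filter fun j => j / K = b).eq_empty_or_nonempty with h0 | h0
  · rw [h0, Finset.card_empty]
    exact Nat.zero_le _
  · obtain ⟨κ, hκ, hmax⟩ := Finset.exists_max_image _ (fun j : ℕ => j) h0
    refine le_trans (Finset.card_le_card fun j hj => ?_) (h κ (Finset.mem_filter.1 hκ).1)
    rw [Finset.mem_filter] at hj hκ ⊢
    refine ⟨hj.1, hmax j (Finset.mem_filter.2 hj), ?_⟩
    have e1 : κ < (b + 1) * K := by
      rw [← hκ.2]
      exact Nat.lt_mul_of_div_lt (Nat.lt_succ_self _) (by omega)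
    have e2 : b * K ≤ j := by
      rw [← hj.2]
      exact Nat.div_mul_le_self _ _
    have e3 : (b + 1) * K = b * K + K := by ring
    omega

/-- the coefficients of a translate -/
theorem comp_coeff {p : ℤ[X]} {m B κ : ℕ} (hp : p.natDegree ≤ m) (hc : ∀ i, |p.coeff i| ≤ (B : ℤ))
    {Y : ℕ} (hκ : κ ≤ Y) (hY : 1 ≤ Y) (i : ℕ) :
    |(p.comp (X - C (κ : ℤ))).coeff i| ≤ (((m + 1) * 2 ^ m * (Y ^ m * B) : ℕ) : ℤ) := by
  have h0 : p.comp (X - C (κ : ℤ)) =
      ∑ j ∈ Finset.range (m + 1), C (p.coeff j) * (X - C (κ : ℤ)) ^ j := by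
    rw [Polynomial.comp, Polynomial.eval₂_eq_sum_range' C (Nat.lt_succ_of_le hp)]
  rw [h0, Polynomial.finsetSum_coeff]
  have h1 : ∀ j ∈ Finset.range (m + 1), |(C (p.coeff j) * (X - C (κ : ℤ)) ^ j).coeff i| ≤
      ((2 ^ m * (Y ^ m * B) : ℕ) : ℤ) := by
    intro j hj
    have hj' : j ≤ m := Nat.lt_succ_iff.1 (Finset.mem_range.1 hj)
    have h2 : (X - C (κ : ℤ)) ^ j = (X + C (-(κ : ℤ))) ^ j := by
      rw [C_neg, sub_eq_add_neg]
    rw [Polynomial.coeff_C_mul, h2, Polynomial.coeff_X_add_C_pow, abs_mul, abs_mul, abs_pow,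
      abs_neg, Nat.abs_cast, Nat.abs_cast]
    have e1 : ((κ : ℤ)) ^ (j - i) ≤ (Y : ℤ) ^ m := by
      have : κ ^ (j - i) ≤ Y ^ m :=
        (Nat.pow_le_pow_left hκ _).trans (Nat.pow_le_pow_right hY (by omega))
      exact_mod_cast this
    have e2 : ((j.choose i : ℕ) : ℤ) ≤ 2 ^ m := by
      have : j.choose i ≤ 2 ^ m :=
        (Nat.choose_le_two_pow j i).trans (Nat.pow_le_pow_right (by norm_num) hj')
      exact_mod_cast this
    push_cast
    calc |p.coeff j| * ((κ : ℤ) ^ (j - i) * (j.choose i : ℤ))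
        ≤ (B : ℤ) * ((Y : ℤ) ^ m * 2 ^ m) :=
          mul_le_mul (hc j) (mul_le_mul e1 e2 (by positivity) (by positivity)) (by positivity)
            (by positivity)
      _ = 2 ^ m * ((Y : ℤ) ^ m * B) := by ring
  refine (Finset.abs_sum_le_sum_abs _ _).trans ((Finset.sum_le_sum h1).trans (le_of_eq ?_))
  rw [Finset.sum_const, Finset.card_range, nsmul_eq_mul]
  push_cast
  ring

/-- from windows to segments -/
theorem segH (m A α : ℕ) (hα : 1 ≤ α) : ∃ C0 : ℕ, ∀ (S : Set ℂ) (C B : ℕ), 1 ≤ B → 1 ≤ C →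
    (∀ K : ℕ, ∀ x ∈ Pts m (2 * (m + A) + 1), ((B * (K + 1) : ℕ) : ℝ) ^ α ≤ ‖x‖ →
      Nat.card {κ : ℕ // κ < K ∧ x - κ ∈ S} ≤ C) →
    ∀ X : ℕ, 1 ≤ X → ∀ x ∈ Ip ℂ m (X ^ A),
      (Nat.card {κ : ℕ // κ < X ∧ x + κ ∈ S} : ℝ) ≤
        C0 * C * B * (X : ℝ) ^ (1 - 1 / (2 * (α : ℝ))) := by
  classical
  set X0 : ℕ := ((m + 1) * 2 ^ m) ^ 2 with hX0
  refine ⟨X0 + 8, fun S C B hB hC hwin X hX x hx => ?_⟩
  have hXr : (1 : ℝ) ≤ X := by exact_mod_cast hX
  have hXpos : (0 : ℝ) < X := by linarith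
  have hBr : (1 : ℝ) ≤ B := by exact_mod_cast hB
  have hCr : (1 : ℝ) ≤ C := by exact_mod_cast hC
  have hCB : (1 : ℝ) ≤ C * B := by nlinarith
  have hαr : (1 : ℝ) ≤ α := by exact_mod_cast hα
  obtain ⟨r, hr⟩ : ∃ r : ℝ, r = (X : ℝ) ^ (1 / (2 * (α : ℝ))) := ⟨_, rfl⟩
  have hr1 : 1 ≤ r := by rw [hr]; exact Real.one_le_rpow hXr (by positivity)
  have hr0 : 0 < r := by linarith
  have hexp : (X : ℝ) ^ (1 - 1 / (2 * (α : ℝ))) = X / r := by
    rw [Real.rpow_sub hXpos, Real.rpow_one, hr]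
  rw [hexp]
  have hpos : 0 ≤ (X : ℝ) / r := by positivity
  obtain ⟨h, hh⟩ : ∃ h : ℝ, h = Real.sqrt X := ⟨_, rfl⟩
  have hhh : h * h = X := by rw [hh]; exact Real.mul_self_sqrt hXpos.le
  have hh0 : 0 < h := by rw [hh]; exact Real.sqrt_pos.2 hXpos
  have hrα : r ^ α = h := by
    rw [hr, ← Real.rpow_natCast, ← Real.rpow_mul hXpos.le, hh, Real.sqrt_eq_rpow]
    congr 1
    field_simp
  have hrh : r ≤ h := by
    rw [← hrα]
    exact le_self_pow₀ hr1 (by omega)
  have hhXr : h ≤ X / r := by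
    rw [le_div_iff₀ hr0]
    nlinarith
  have h1h : 1 ≤ h := hr1.trans hrh
  -- the finset
  obtain ⟨G, hG⟩ : ∃ G : Finset ℕ, G = (Finset.range X).filter fun κ : ℕ => x + κ ∈ S := ⟨_, rfl⟩
  have hcard : Nat.card {κ : ℕ // κ < X ∧ x + κ ∈ S} = G.card := by
    apply Nat.subtype_card
    intro κ
    rw [hG, Finset.mem_filter, Finset.mem_range]
  rw [hcard]
  have htriv : (G.card : ℝ) ≤ X := by
    have : G.card ≤ X := by
      rw [hG]
      exact (Finset.card_filter_le _ _).trans (by rw [Finset.card_range])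
    exact_mod_cast this
  have hX0r : (0 : ℝ) ≤ X0 := Nat.cast_nonneg _
  -- the trivial cases
  have hcase : ∀ s : ℝ, r ≤ s * (C * B) → s ≤ X0 + 8 →
      (G.card : ℝ) ≤ ((X0 + 8 : ℕ) : ℝ) * C * B * (X / r) := by
    intro s hs hs2
    have e1 : (X : ℝ) = r * (X / r) := by field_simp
    have e2 : r ≤ (X0 + 8) * (C * B) :=
      hs.trans (mul_le_mul_of_nonneg_right hs2 (by linarith))
    calc (G.card : ℝ) ≤ X := htriv
      _ = r * (X / r) := e1
      _ ≤ (X0 + 8) * (C * B) * (X / r) := mul_le_mul_of_nonneg_right e2 hpos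
      _ = ((X0 + 8 : ℕ) : ℝ) * C * B * (X / r) := by push_cast; ring
  by_cases hb1 : X < X0
  · refine hcase X0 ?_ (by linarith)
    have e1 : r ≤ X0 := by
      have : (X : ℝ) ≤ X0 := by exact_mod_cast hb1.le
      nlinarith
    nlinarith
  by_cases hb2 : r < 2 * B
  · exact hcase 2 (by nlinarith) (by linarith)
  rw [not_lt] at hb1 hb2
  -- the main case
  have hmh : (((m + 1) * 2 ^ m : ℕ) : ℝ) ≤ h := by
    rw [hh]
    apply Real.le_sqrt_of_sq_le
    have : (((m + 1) * 2 ^ m) ^ 2 : ℕ) ≤ X := hb1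
    exact_mod_cast this
  obtain ⟨M1, hM1⟩ : ∃ M1 : ℕ, M1 = ⌊r / B⌋₊ := ⟨_, rfl⟩
  have hM1a : (M1 : ℝ) ≤ r / B := by rw [hM1]; exact Nat.floor_le (by positivity)
  have hM1b : r / B < M1 + 1 := by rw [hM1]; exact Nat.lt_floor_add_one _
  have hrB2 : 2 ≤ r / B := by rw [le_div_iff₀ (by linarith)]; exact hb2
  have hM12 : 2 ≤ M1 := by
    rw [hM1]
    exact Nat.le_floor (by exact_mod_cast hrB2)
  obtain ⟨K, hK⟩ : ∃ K : ℕ, M1 = K + 1 := ⟨M1 - 1, by omega⟩
  have hK' : (M1 : ℝ) = K + 1 := by rw [hK]; push_cast; ring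
  have hK1 : 1 ≤ K := by omega
  have hK1r : (1 : ℝ) ≤ K := by exact_mod_cast hK1
  have hKr : r / (4 * B) ≤ K := by
    have e1 : r / (4 * B) = r / B / 4 := by field_simp
    rw [e1]
    nlinarith
  have hKpos : (0 : ℝ) < K := by linarith
  have hKα : ((B * (K + 1) : ℕ) : ℝ) ^ α ≤ h := by
    have e1 : ((B * (K + 1) : ℕ) : ℝ) ≤ r := by
      push_cast
      rw [← hK']
      rw [le_div_iff₀ (by linarith)] at hM1a
      linarith
    calc ((B * (K + 1) : ℕ) : ℝ) ^ α ≤ r ^ α := pow_le_pow_left₀ (by positivity) e1 α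
      _ = h := hrα
  -- the large points
  have hP : ∀ κ : ℕ, κ < X → h ≤ ‖x + κ‖ → x + κ ∈ Pts m (2 * (m + A) + 1) := by
    intro κ hκ hn
    obtain ⟨p, hp, hd, hc, hz⟩ := hx
    refine ⟨p.comp (Polynomial.X - Polynomial.C (κ : ℤ)), ?_, ?_, fun i => ?_, ?_⟩
    · have := hp.comp_X_sub_C (κ : ℤ)
      exact this.ne_zero
    · rw [natDegree_comp, natDegree_X_sub_C, mul_one]
      exact hd
    · have e1 := comp_coeff hd hc hκ.le hX i
      have e2 : |(((p.comp (Polynomial.X - Polynomial.C (κ : ℤ))).coeff i : ℤ) : ℝ)| ≤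
          (((m + 1) * 2 ^ m * (X ^ m * X ^ A) : ℕ) : ℝ) := by exact_mod_cast e1
      refine e2.trans ?_
      have e3 : (((m + 1) * 2 ^ m * (X ^ m * X ^ A) : ℕ) : ℝ) =
          (((m + 1) * 2 ^ m : ℕ) : ℝ) * (h * h) ^ (m + A) := by
        rw [hhh]
        push_cast
        ring
      rw [e3]
      calc (((m + 1) * 2 ^ m : ℕ) : ℝ) * (h * h) ^ (m + A) ≤ h * (h * h) ^ (m + A) :=
            mul_le_mul_of_nonneg_right hmh (by positivity)
        _ = h ^ (2 * (m + A) + 1) := by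
            rw [← sq, ← pow_mul]
            ring
        _ ≤ ‖x + κ‖ ^ (2 * (m + A) + 1) := pow_le_pow_left₀ hh0.le hn _
    · rw [aeval_comp]
      have e1 : aeval (x + κ) (Polynomial.X - Polynomial.C (κ : ℤ)) = x := by simp
      rw [e1]
      exact hz
  -- the two parts
  obtain ⟨G1, hG1⟩ : ∃ G1 : Finset ℕ, G1 = (Finset.range X).filter fun κ : ℕ => ‖x + κ‖ < h :=
    ⟨_, rfl⟩
  obtain ⟨G2, hG2⟩ : ∃ G2 : Finset ℕ, G2 = G.filter fun κ : ℕ => h ≤ ‖x + κ‖ := ⟨_, rfl⟩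
  have hsub : G ⊆ G1 ∪ G2 := by
    intro κ hκ
    rw [Finset.mem_union]
    rcases lt_or_ge ‖x + κ‖ h with h1 | h1
    · left
      rw [hG1, Finset.mem_filter]
      rw [hG, Finset.mem_filter] at hκ
      exact ⟨hκ.1, h1⟩
    · right
      rw [hG2, Finset.mem_filter]
      exact ⟨hκ, h1⟩
  have hc1 : (G1.card : ℝ) ≤ 2 * h + 1 := by
    rw [hG1]
    exact H35.card_ball X x h hh0.le
  have hc2 : G2.card ≤ (X / K + 1) * C := by
    refine card_win hK1 G2 (fun κ hκ => ?_) fun κ hκ => ?_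
    · rw [hG2, Finset.mem_filter, hG, Finset.mem_filter, Finset.mem_range] at hκ
      exact hκ.1.1
    · rw [hG2, Finset.mem_filter, hG, Finset.mem_filter, Finset.mem_range] at hκ
      have e1 := hwin K (x + κ) (hP κ hκ.1.1 hκ.2) (hKα.trans hκ.2)
      refine le_trans ?_ e1
      have e2 : Nat.card {κ' : ℕ // κ' < K ∧ x + κ - κ' ∈ S} =
          ((Finset.range K).filter fun κ' : ℕ => x + κ - κ' ∈ S).card := by
        apply Nat.subtype_card
        intro κ'
        rw [Finset.mem_filter, Finset.mem_range]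
      rw [e2]
      refine Finset.card_le_card_of_injOn (fun j => κ - j) (fun j hj => ?_) ?_
      · rw [Finset.mem_coe, Finset.mem_filter] at hj
        obtain ⟨hj1, hj2, hj3⟩ := hj
        rw [hG2, Finset.mem_filter, hG, Finset.mem_filter, Finset.mem_range] at hj1
        rw [Finset.mem_coe, Finset.mem_filter, Finset.mem_range]
        refine ⟨show κ - j < K by omega, ?_⟩
        change x + (κ : ℂ) - ((κ - j : ℕ) : ℂ) ∈ S
        have e3 : x + (κ : ℂ) - ((κ - j : ℕ) : ℂ) = x + j := by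
          rw [Nat.cast_sub hj2]
          ring
        rw [e3]
        exact hj1.1.2
      · intro j hj j' hj' hjj
        rw [Finset.mem_coe, Finset.mem_filter] at hj hj'
        have e3 : κ - j = κ - j' := hjj
        omega
  have hfin : (G.card : ℝ) ≤ (2 * h + 1) + ((X : ℝ) / K + 1) * C := by
    have e1 : G.card ≤ G1.card + G2.card :=
      (Finset.card_le_card hsub).trans (Finset.card_union_le _ _)
    have e2 : (G.card : ℝ) ≤ G1.card + G2.card := by exact_mod_cast e1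
    have e3 : (G2.card : ℝ) ≤ ((X : ℝ) / K + 1) * C := by
      have e4 : (G2.card : ℝ) ≤ (((X / K : ℕ) : ℝ) + 1) * C := by exact_mod_cast hc2
      have e5 : ((X / K : ℕ) : ℝ) ≤ (X : ℝ) / K := Nat.cast_div_le
      refine e4.trans (mul_le_mul_of_nonneg_right (by linarith) (by positivity))
    linarith
  have hXK : (X : ℝ) / K ≤ 4 * B * (X / r) := by
    rw [div_le_iff₀ hKpos]
    have e1 : r / (4 * B) * (4 * B) = r := by field_simp
    have e2 : r ≤ K * (4 * B) := by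
      calc r = r / (4 * B) * (4 * B) := e1.symm
        _ ≤ K * (4 * B) := mul_le_mul_of_nonneg_right hKr (by positivity)
    have e3 : (X : ℝ) = r * (X / r) := by field_simp
    calc (X : ℝ) = r * (X / r) := e3
      _ ≤ K * (4 * B) * (X / r) := mul_le_mul_of_nonneg_right e2 hpos
      _ = 4 * B * (X / r) * K := by ring
  have h1X : (1 : ℝ) ≤ X / r := h1h.trans hhXr
  obtain ⟨Z, hZ⟩ : ∃ Z : ℝ, Z = (X : ℝ) / r := ⟨_, rfl⟩
  rw [← hZ] at hXK h1X hhXr hpos ⊢
  have f1 : ((X : ℝ) / K + 1) * C ≤ 5 * (C * B * Z) := by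
    have g1 : (X : ℝ) / K + 1 ≤ 5 * (B * Z) := by nlinarith
    calc ((X : ℝ) / K + 1) * C ≤ 5 * (B * Z) * C :=
          mul_le_mul_of_nonneg_right g1 (by positivity)
      _ = 5 * (C * B * Z) := by ring
  have f2 : 2 * h + 1 ≤ 3 * (C * B * Z) := by
    have g1 : Z ≤ C * B * Z := by nlinarith
    linarith
  have f3 : (0 : ℝ) ≤ X0 * (C * B * Z) := by positivity
  push_cast
  nlinarith

end Pool.Agent.PSV.H88
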