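import Pool.Agent.PSV.FewC
import Pool.Agent.Helper88_PSV.Cnt
import Pool.Agent.Helper20_HUK.FRC

/-! PSV / HUK: from windows to FewC, with explicit constants. -/

set_option autoImplicit false

namespace Pool.Agent.PSV.H88

open Polynomial NumberField Pool.Agent.MTN Pool.Agent.HUK Pool.Agent.HIK

/-- from windows to segments, all algebraic numbers (edit of `segH`) -/
theorem segA (m A α : ℕ) (hα : 1 ≤ α) : ∃ C0 : ℕ, ∀ (S : Set ℂ) (C B : ℕ), 1 ≤ B → 1 ≤ C →
    (∀ K : ℕ, ∀ x ∈ Pts m (2 * (m + A) + 1), ((B * (K + 1) : ℕ) : ℝ) ^ α ≤ ‖x‖ →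
      Nat.card {κ : ℕ // κ < K ∧ x - κ ∈ S} ≤ C) →
    ∀ X : ℕ, 1 ≤ X → ∀ x ∈ Ap ℂ m (X ^ A),
      (Nat.card {κ : ℕ // κ < X ∧ x + κ ∈ S} : ℝ) ≤
        C0 * C * B * (X : ℝ) ^ (1 - 1 / (2 * (α : ℝ))) := by
  classical
  set X0 : ℕ := ((m + 1) * 2 ^ m) ^ 2 with hX0
  refine ⟨X0 + 8, fun S C B hB hC hwin X hX x hx => ?_⟩
  have hXr : (1 : ℝ) ≤ X := by exact_mod_cast hX
  have hXpos : (0 : ℝ) < X := by linarith
  have hBr : (1 : ℝ) ≤ B := by exact_mod_cast hB
  have hCr : (1 : ℝ) ≤ C := by exact_mod_cast hC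
  have hCB : (1 : ℝ) ≤ C * B := by nlinarith
  have hαr : (1 : ℝ) ≤ α := by exact_mod_cast hα
  obtain ⟨r, hr⟩ : ∃ r : ℝ, r = (X : ℝ) ^ (1 / (2 * (α : ℝ))) := ⟨_, rfl⟩
  have hr1 : 1 ≤ r := by rw [hr]; exact Real.one_le_rpow hXr (by positivity)
  have hr0 : 0 < r := by linarith
  have hexp : (X : ℝ) ^ (1 - 1 / (2 * (α : ℝ))) = X / r := by
    rw [Real.rpow_sub hXpos, Real.rpow_one, hr]
  rw [hexp]
  have hpos : 0 ≤ (X : ℝ) / r := by positivity
  obtain ⟨h, hh⟩ : ∃ h : ℝ, h = Real.sqrt X := ⟨_, rfl⟩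
  have hhh : h * h = X := by rw [hh]; exact Real.mul_self_sqrt hXpos.le
  have hh0 : 0 < h := by rw [hh]; exact Real.sqrt_pos.2 hXpos
  have hrα : r ^ α = h := by
    rw [hr, ← Real.rpow_natCast, ← Real.rpow_mul hXpos.le, hh, Real.sqrt_eq_rpow]
    congr 1
    field_simp
  have hrh : r ≤ h := by
    rw [← hrα]
    exact le_self_pow₀ hr1 (by omega)
  have hhXr : h ≤ X / r := by
    rw [le_div_iff₀ hr0]
    nlinarith
  have h1h : 1 ≤ h := hr1.trans hrh
  -- the finset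
  obtain ⟨G, hG⟩ : ∃ G : Finset ℕ, G = (Finset.range X).filter fun κ : ℕ => x + κ ∈ S := ⟨_, rfl⟩
  have hcard : Nat.card {κ : ℕ // κ < X ∧ x + κ ∈ S} = G.card := by
    apply Nat.subtype_card
    intro κ
    rw [hG, Finset.mem_filter, Finset.mem_range]
  rw [hcard]
  have htriv : (G.card : ℝ) ≤ X := by
    have : G.card ≤ X := by
      rw [hG]
      exact (Finset.card_filter_le _ _).trans (by rw [Finset.card_range])
    exact_mod_cast this
  have hX0r : (0 : ℝ) ≤ X0 := Nat.cast_nonneg _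
  -- the trivial cases
  have hcase : ∀ s : ℝ, r ≤ s * (C * B) → s ≤ X0 + 8 →
      (G.card : ℝ) ≤ ((X0 + 8 : ℕ) : ℝ) * C * B * (X / r) := by
    intro s hs hs2
    have e1 : (X : ℝ) = r * (X / r) := by field_simp
    have e2 : r ≤ (X0 + 8) * (C * B) :=
      hs.trans (mul_le_mul_of_nonneg_right hs2 (by linarith))
    calc (G.card : ℝ) ≤ X := htriv
      _ = r * (X / r) := e1
      _ ≤ (X0 + 8) * (C * B) * (X / r) := mul_le_mul_of_nonneg_right e2 hpos
      _ = ((X0 + 8 : ℕ) : ℝ) * C * B * (X / r) := by push_cast; ring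
  by_cases hb1 : X < X0
  · refine hcase X0 ?_ (by linarith)
    have e1 : r ≤ X0 := by
      have : (X : ℝ) ≤ X0 := by exact_mod_cast hb1.le
      nlinarith
    nlinarith
  by_cases hb2 : r < 2 * B
  · exact hcase 2 (by nlinarith) (by linarith)
  rw [not_lt] at hb1 hb2
  -- the main case
  have hmh : (((m + 1) * 2 ^ m : ℕ) : ℝ) ≤ h := by
    rw [hh]
    apply Real.le_sqrt_of_sq_le
    have : (((m + 1) * 2 ^ m) ^ 2 : ℕ) ≤ X := hb1
    exact_mod_cast this
  obtain ⟨M1, hM1⟩ : ∃ M1 : ℕ, M1 = ⌊r / B⌋₊ := ⟨_, rfl⟩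
  have hM1a : (M1 : ℝ) ≤ r / B := by rw [hM1]; exact Nat.floor_le (by positivity)
  have hM1b : r / B < M1 + 1 := by rw [hM1]; exact Nat.lt_floor_add_one _
  have hrB2 : 2 ≤ r / B := by rw [le_div_iff₀ (by linarith)]; exact hb2
  have hM12 : 2 ≤ M1 := by
    rw [hM1]
    exact Nat.le_floor (by exact_mod_cast hrB2)
  obtain ⟨K, hK⟩ : ∃ K : ℕ, M1 = K + 1 := ⟨M1 - 1, by omega⟩
  have hK' : (M1 : ℝ) = K + 1 := by rw [hK]; push_cast; ring
  have hK1 : 1 ≤ K := by omega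
  have hK1r : (1 : ℝ) ≤ K := by exact_mod_cast hK1
  have hKr : r / (4 * B) ≤ K := by
    have e1 : r / (4 * B) = r / B / 4 := by field_simp
    rw [e1]
    nlinarith
  have hKpos : (0 : ℝ) < K := by linarith
  have hKα : ((B * (K + 1) : ℕ) : ℝ) ^ α ≤ h := by
    have e1 : ((B * (K + 1) : ℕ) : ℝ) ≤ r := by
      push_cast
      rw [← hK']
      rw [le_div_iff₀ (by linarith)] at hM1a
      linarith
    calc ((B * (K + 1) : ℕ) : ℝ) ^ α ≤ r ^ α := pow_le_pow_left₀ (by positivity) e1 α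
      _ = h := hrα
  -- the large points
  have hP : ∀ κ : ℕ, κ < X → h ≤ ‖x + κ‖ → x + κ ∈ Pts m (2 * (m + A) + 1) := by
    intro κ hκ hn
    obtain ⟨p, hp, hd, hc, hz⟩ := hx
    refine ⟨p.comp (Polynomial.X - Polynomial.C (κ : ℤ)), ?_, ?_, fun i => ?_, ?_⟩
    · intro h0
      have e1 : p.comp (Polynomial.X + Polynomial.C (-(κ : ℤ))) = 0 := by
        rw [Polynomial.C_neg, ← sub_eq_add_neg]
        exact h0
      rw [Polynomial.comp_eq_zero_iff] at e1
      rcases e1 with e1 | ⟨-, e1⟩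
      · exact hp e1
      · have e2 := congrArg Polynomial.natDegree e1
        rw [Polynomial.natDegree_X_add_C, Polynomial.natDegree_C] at e2
        exact one_ne_zero e2
    · rw [natDegree_comp, natDegree_X_sub_C, mul_one]
      exact hd
    · have e1 := comp_coeff hd hc hκ.le hX i
      have e2 : |(((p.comp (Polynomial.X - Polynomial.C (κ : ℤ))).coeff i : ℤ) : ℝ)| ≤
          (((m + 1) * 2 ^ m * (X ^ m * X ^ A) : ℕ) : ℝ) := by exact_mod_cast e1
      refine e2.trans ?_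
      have e3 : (((m + 1) * 2 ^ m * (X ^ m * X ^ A) : ℕ) : ℝ) =
          (((m + 1) * 2 ^ m : ℕ) : ℝ) * (h * h) ^ (m + A) := by
        rw [hhh]
        push_cast
        ring
      rw [e3]
      calc (((m + 1) * 2 ^ m : ℕ) : ℝ) * (h * h) ^ (m + A) ≤ h * (h * h) ^ (m + A) :=
            mul_le_mul_of_nonneg_right hmh (by positivity)
        _ = h ^ (2 * (m + A) + 1) := by
            rw [← sq, ← pow_mul]
            ring
        _ ≤ ‖x + κ‖ ^ (2 * (m + A) + 1) := pow_le_pow_left₀ hh0.le hn _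
    · rw [aeval_comp]
      have e1 : aeval (x + κ) (Polynomial.X - Polynomial.C (κ : ℤ)) = x := by simp
      rw [e1]
      exact hz
  -- the two parts
  obtain ⟨G1, hG1⟩ : ∃ G1 : Finset ℕ, G1 = (Finset.range X).filter fun κ : ℕ => ‖x + κ‖ < h :=
    ⟨_, rfl⟩
  obtain ⟨G2, hG2⟩ : ∃ G2 : Finset ℕ, G2 = G.filter fun κ : ℕ => h ≤ ‖x + κ‖ := ⟨_, rfl⟩
  have hsub : G ⊆ G1 ∪ G2 := by
    intro κ hκ
    rw [Finset.mem_union]
    rcases lt_or_ge ‖x + κ‖ h with h1 | h1
    · left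
      rw [hG1, Finset.mem_filter]
      rw [hG, Finset.mem_filter] at hκ
      exact ⟨hκ.1, h1⟩
    · right
      rw [hG2, Finset.mem_filter]
      exact ⟨hκ, h1⟩
  have hc1 : (G1.card : ℝ) ≤ 2 * h + 1 := by
    rw [hG1]
    exact H35.card_ball X x h hh0.le
  have hc2 : G2.card ≤ (X / K + 1) * C := by
    refine card_win hK1 G2 (fun κ hκ => ?_) fun κ hκ => ?_
    · rw [hG2, Finset.mem_filter, hG, Finset.mem_filter, Finset.mem_range] at hκ
      exact hκ.1.1
    · rw [hG2, Finset.mem_filter, hG, Finset.mem_filter, Finset.mem_range] at hκ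
      have e1 := hwin K (x + κ) (hP κ hκ.1.1 hκ.2) (hKα.trans hκ.2)
      refine le_trans ?_ e1
      have e2 : Nat.card {κ' : ℕ // κ' < K ∧ x + κ - κ' ∈ S} =
          ((Finset.range K).filter fun κ' : ℕ => x + κ - κ' ∈ S).card := by
        apply Nat.subtype_card
        intro κ'
        rw [Finset.mem_filter, Finset.mem_range]
      rw [e2]
      refine Finset.card_le_card_of_injOn (fun j => κ - j) (fun j hj => ?_) ?_
      · rw [Finset.mem_coe, Finset.mem_filter] at hj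
        obtain ⟨hj1, hj2, hj3⟩ := hj
        rw [hG2, Finset.mem_filter, hG, Finset.mem_filter, Finset.mem_range] at hj1
        rw [Finset.mem_coe, Finset.mem_filter, Finset.mem_range]
        refine ⟨show κ - j < K by omega, ?_⟩
        change x + (κ : ℂ) - ((κ - j : ℕ) : ℂ) ∈ S
        have e3 : x + (κ : ℂ) - ((κ - j : ℕ) : ℂ) = x + j := by
          rw [Nat.cast_sub hj2]
          ring
        rw [e3]
        exact hj1.1.2
      · intro j hj j' hj' hjj
        rw [Finset.mem_coe, Finset.mem_filter] at hj hj'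
        have e3 : κ - j = κ - j' := hjj
        omega
  have hfin : (G.card : ℝ) ≤ (2 * h + 1) + ((X : ℝ) / K + 1) * C := by
    have e1 : G.card ≤ G1.card + G2.card :=
      (Finset.card_le_card hsub).trans (Finset.card_union_le _ _)
    have e2 : (G.card : ℝ) ≤ G1.card + G2.card := by exact_mod_cast e1
    have e3 : (G2.card : ℝ) ≤ ((X : ℝ) / K + 1) * C := by
      have e4 : (G2.card : ℝ) ≤ (((X / K : ℕ) : ℝ) + 1) * C := by exact_mod_cast hc2
      have e5 : ((X / K : ℕ) : ℝ) ≤ (X : ℝ) / K := Nat.cast_div_le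
      refine e4.trans (mul_le_mul_of_nonneg_right (by linarith) (by positivity))
    linarith
  have hXK : (X : ℝ) / K ≤ 4 * B * (X / r) := by
    rw [div_le_iff₀ hKpos]
    have e1 : r / (4 * B) * (4 * B) = r := by field_simp
    have e2 : r ≤ K * (4 * B) := by
      calc r = r / (4 * B) * (4 * B) := e1.symm
        _ ≤ K * (4 * B) := mul_le_mul_of_nonneg_right hKr (by positivity)
    have e3 : (X : ℝ) = r * (X / r) := by field_simp
    calc (X : ℝ) = r * (X / r) := e3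
      _ ≤ K * (4 * B) * (X / r) := mul_le_mul_of_nonneg_right e2 hpos
      _ = 4 * B * (X / r) * K := by ring
  have h1X : (1 : ℝ) ≤ X / r := h1h.trans hhXr
  obtain ⟨Z, hZ⟩ : ∃ Z : ℝ, Z = (X : ℝ) / r := ⟨_, rfl⟩
  rw [← hZ] at hXK h1X hhXr hpos ⊢
  have f1 : ((X : ℝ) / K + 1) * C ≤ 5 * (C * B * Z) := by
    have g1 : (X : ℝ) / K + 1 ≤ 5 * (B * Z) := by nlinarith
    calc ((X : ℝ) / K + 1) * C ≤ 5 * (B * Z) * C :=
          mul_le_mul_of_nonneg_right g1 (by positivity)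
      _ = 5 * (C * B * Z) := by ring
  have f2 : 2 * h + 1 ≤ 3 * (C * B * Z) := by
    have g1 : Z ≤ C * B * Z := by nlinarith
    linarith
  have f3 : (0 : ℝ) ≤ X0 * (C * B * Z) := by positivity
  push_cast
  nlinarith

open scoped Classical in
/-- power saving for the fractions, explicit (edit of `Pool.Agent.HUK.H20.frc`) -/
theorem frcQ (k : Type) [Field k] [NumberField k] : ∃ C₁ : ℕ, ∀ (E : Type) [Field E] [CharZero E]
    (S : Set E) (σ : k →+* E) (A : ℕ) (D δ : ℝ), 1 ≤ D →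
    (∀ X : ℕ, 1 ≤ X → ∀ x ∈ Ap E (Module.finrank ℚ k) (X ^ ((2 * A + 3) * Module.finrank ℚ k)),
      (Nat.card {κ : ℕ // κ < X ∧ x + κ ∈ S} : ℝ) ≤ D * (X : ℝ) ^ (1 - δ)) →
    ∀ X : ℕ, 1 ≤ X →
      (Nat.card {p : 𝓞 k × ℕ // 1 ≤ p.2 ∧ p.2 ≤ X ^ A ∧ house (p.1 : k) ≤ p.2 * X ∧
        σ p.1 / (p.2 : E) ∈ S} : ℝ) ≤
      C₁ * D * (X : ℝ) ^ ((Module.finrank ℚ k : ℝ) + A * (Module.finrank ℚ k + 1) - δ) := by
  obtain ⟨m, hm⟩ : ∃ m, m = Module.finrank ℚ k := ⟨_, rfl⟩
  obtain ⟨C1, hC1⟩ := boxA k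
  refine ⟨C1 * 3 ^ m + C1 * 2 ^ m, ?_⟩
  intro E _ _ S σ A C0 δ hC01 hC
  rw [← hm] at hC hC1 ⊢
  intro X hX
  have hXr : (1 : ℝ) ≤ (X : ℝ) := by exact_mod_cast hX
  have hXp : (0 : ℝ) < (X : ℝ) := by linarith
  -- the finite sets
  let B : ℕ → Finset (𝓞 k) := fun Y => (hC1 Y).1.toFinset
  have hB : ∀ (Y : ℕ) (a : 𝓞 k), a ∈ B Y ↔ house (a : k) ≤ Y := fun Y a => by
    rw [(hC1 Y).1.mem_toFinset]
    rfl
  have hBc : ∀ Y : ℕ, ((B Y).card : ℝ) ≤ C1 * ((Y : ℝ) + 1) ^ m := by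
    intro Y
    have h1 := (hC1 Y).2
    rw [Nat.subtype_card (B Y) (hB Y)] at h1
    exact_mod_cast h1
  let F : ℕ → Finset (𝓞 k) := fun b => (B (b * X)).filter fun a => σ a / (b : E) ∈ S
  have hFm : ∀ (b : ℕ) (a : 𝓞 k), a ∈ F b ↔ (house (a : k) ≤ ((b * X : ℕ) : ℝ) ∧
      σ a / (b : E) ∈ S) := fun b a => by
    rw [Finset.mem_filter, hB]
  let T : Finset (𝓞 k × ℕ) := (Finset.Icc 1 (X ^ A)).biUnion fun b => (F b).image fun a => (a, b)
  have hT : Nat.card {p : 𝓞 k × ℕ // 1 ≤ p.2 ∧ p.2 ≤ X ^ A ∧ house (p.1 : k) ≤ p.2 * X ∧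
      σ p.1 / (p.2 : E) ∈ S} = T.card := by
    apply Nat.subtype_card
    rintro ⟨a, b⟩
    rw [Finset.mem_biUnion]
    constructor
    · rintro ⟨b', hb', h⟩
      rw [Finset.mem_image] at h
      obtain ⟨a', ha', h⟩ := h
      obtain ⟨rfl, rfl⟩ := Prod.mk.inj h
      rw [Finset.mem_Icc] at hb'
      rw [hFm] at ha'
      refine ⟨hb'.1, hb'.2, ?_, ha'.2⟩
      have h1 := ha'.1
      push_cast at h1
      exact h1
    · rintro ⟨h1, h2, h3, h4⟩
      refine ⟨b, Finset.mem_Icc.2 ⟨h1, h2⟩, Finset.mem_image.2 ⟨a, (hFm b a).2 ⟨?_, h4⟩, rfl⟩⟩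
      push_cast
      exact h3
  have hTle : (T.card : ℝ) ≤ ∑ b ∈ Finset.Icc 1 (X ^ A), ((F b).card : ℝ) := by
    have h1 : T.card ≤ ∑ b ∈ Finset.Icc 1 (X ^ A), (F b).card :=
      Finset.card_biUnion_le.trans (Finset.sum_le_sum fun b _ => Finset.card_image_le)
    exact_mod_cast h1
  rw [hT]
  push_cast
  rcases lt_or_ge X 2 with hlt | hge
  · -- `X = 1`
    have hX1 : X = 1 := by omega
    subst hX1
    refine hTle.trans ?_
    rw [one_pow, Finset.Icc_self, Finset.sum_singleton, Nat.cast_one, Real.one_rpow, mul_one]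
    have h1 : ((F 1).card : ℝ) ≤ ((B (1 * 1)).card : ℝ) := by
      exact_mod_cast Finset.card_le_card (Finset.filter_subset _ _)
    have h2 := hBc (1 * 1)
    have h4 : (((1 * 1 : ℕ) : ℝ) + 1) = 2 := by norm_num
    rw [h4] at h2
    have h5 : (C1 : ℝ) * 2 ^ m * 1 ≤ (C1 * 3 ^ m + C1 * 2 ^ m) * C0 :=
      mul_le_mul (le_add_of_nonneg_left (by positivity)) hC01 (by norm_num) (by positivity)
    linarith
  · have hFle : ∀ b ∈ Finset.Icc 1 (X ^ A), ((F b).card : ℝ) ≤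
        C1 * 3 ^ m * C0 * ((X : ℝ) ^ (A * m) * (X : ℝ) ^ ((m : ℝ) - δ)) := by
      intro b hb
      rw [Finset.mem_Icc] at hb
      let G : 𝓞 k → Finset ℕ := fun w => (Finset.range X).filter fun j : ℕ =>
        σ w / (b : E) + (j : E) ∈ S
      have hG : ∀ w : 𝓞 k, Nat.card {κ : ℕ // κ < X ∧ σ (w : k) / (b : E) + (κ : E) ∈ S} =
          (G w).card := by
        intro w
        apply Nat.subtype_card
        intro j
        rw [Finset.mem_filter, Finset.mem_range]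
      have hbE : (b : E) ≠ 0 := by exact_mod_cast (by omega : b ≠ 0)
      have hbr : (1 : ℝ) ≤ (b : ℝ) := by exact_mod_cast hb.1
      have hcount : (F b).card * X ≤ ∑ w ∈ B (2 * (b * X)), (G w).card := by
        rw [← Finset.card_sigma, ← Finset.card_range X, ← Finset.card_product]
        rw [Finset.card_range X]
        apply Finset.card_le_card_of_injOn
          (fun x : 𝓞 k × ℕ => (⟨x.1 - ((b * x.2 : ℕ) : 𝓞 k), x.2⟩ : (_ : 𝓞 k) × ℕ))
        · intro x hx
          rw [Finset.mem_coe, Finset.mem_product, hFm, Finset.mem_range] at hx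
          rw [Finset.mem_coe, Finset.mem_sigma, hB, Finset.mem_filter, Finset.mem_range]
          refine ⟨?_, hx.2, ?_⟩
          · have h1 : ((x.1 - ((b * x.2 : ℕ) : 𝓞 k) : 𝓞 k) : k) =
                (x.1 : k) + ((-((b * x.2 : ℕ) : ℤ) : ℤ) : k) := by
              push_cast
              ring
            have h2 := house_add_le (x.1 : k) ((-((b * x.2 : ℕ) : ℤ) : ℤ) : k)
            rw [house_intCast] at h2
            have h3 : ((|(-((b * x.2 : ℕ) : ℤ))| : ℤ) : ℝ) = ((b * x.2 : ℕ) : ℝ) := by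
              rw [abs_neg, Nat.abs_cast]
              push_cast
              rfl
            rw [h3] at h2
            have h4 : ((b * x.2 : ℕ) : ℝ) ≤ ((b * X : ℕ) : ℝ) := by
              exact_mod_cast Nat.mul_le_mul_left b hx.2.le
            show house ((x.1 - ((b * x.2 : ℕ) : 𝓞 k) : 𝓞 k) : k) ≤ ((2 * (b * X) : ℕ) : ℝ)
            have h5 : house ((x.1 - ((b * x.2 : ℕ) : 𝓞 k) : 𝓞 k) : k) ≤
                house (x.1 : k) + ((b * x.2 : ℕ) : ℝ) := by
              rw [h1]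
              exact h2
            have h6 : ((2 * (b * X) : ℕ) : ℝ) = 2 * ((b * X : ℕ) : ℝ) := by
              push_cast
              rfl
            rw [h6]
            linarith [hx.1.1]
          · show σ ((x.1 - ((b * x.2 : ℕ) : 𝓞 k) : 𝓞 k) : k) / (b : E) + (x.2 : E) ∈ S
            have h1 : σ ((x.1 - ((b * x.2 : ℕ) : 𝓞 k) : 𝓞 k) : k) / (b : E) + (x.2 : E) =
                σ (x.1 : k) / (b : E) := by
              push_cast
              rw [map_sub, map_mul, map_natCast, map_natCast]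
              field_simp
              ring
            rw [h1]
            exact hx.1.2
        · intro x _ y _ hxy
          have h1 : x.2 = y.2 := congrArg Sigma.snd hxy
          have h2 : x.1 - ((b * x.2 : ℕ) : 𝓞 k) = y.1 - ((b * y.2 : ℕ) : 𝓞 k) :=
            congrArg Sigma.fst hxy
          rw [h1] at h2
          exact Prod.ext (sub_left_injective h2) h1
      have hGle : ∀ w ∈ B (2 * (b * X)), ((G w).card : ℝ) ≤ C0 * (X : ℝ) ^ (1 - δ) := by
        intro w hw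
        rw [← hG w]
        rw [hB] at hw
        have h1 := HUK.H20.mem_Ap σ w b X A hge hb.1 hb.2 hw
        rw [← hm] at h1
        exact hC X hX _ h1
      have h1 : ((F b).card : ℝ) * X ≤
          (C1 * (2 * (b * X) + 1) ^ m) * (C0 * (X : ℝ) ^ (1 - δ)) := by
        calc ((F b).card : ℝ) * X = (((F b).card * X : ℕ) : ℝ) := by push_cast; rfl
          _ ≤ ((∑ w ∈ B (2 * (b * X)), (G w).card : ℕ) : ℝ) := by exact_mod_cast hcount
          _ = ∑ w ∈ B (2 * (b * X)), ((G w).card : ℝ) := by push_cast; rfl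
          _ ≤ ∑ w ∈ B (2 * (b * X)), C0 * (X : ℝ) ^ (1 - δ) := Finset.sum_le_sum hGle
          _ = ((B (2 * (b * X))).card : ℝ) * (C0 * (X : ℝ) ^ (1 - δ)) := by
            rw [Finset.sum_const, nsmul_eq_mul]
          _ ≤ _ := by
            apply mul_le_mul_of_nonneg_right
            · have := hBc (2 * (b * X))
              push_cast at this
              exact this
            · positivity
      have hb2 : (b : ℝ) ≤ (X : ℝ) ^ A := by exact_mod_cast hb.2
      have h2 : ((2 : ℝ) * (b * X) + 1) ^ m ≤ (3 * ((X : ℝ) ^ A * X)) ^ m := by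
        apply pow_le_pow_left₀ (by positivity)
        have h3 : (1 : ℝ) ≤ (X : ℝ) ^ A * X := by
          have h4 : (1 : ℝ) ≤ (X : ℝ) ^ A := one_le_pow₀ hXr
          nlinarith
        have h5 : (b : ℝ) * X ≤ (X : ℝ) ^ A * X := mul_le_mul_of_nonneg_right hb2 hXp.le
        linarith
      have h3 : (X : ℝ) ^ m * (X : ℝ) ^ (1 - δ) = (X : ℝ) ^ ((m : ℝ) - δ) * X := by
        rw [← Real.rpow_natCast, ← Real.rpow_add hXp]
        have : (m : ℝ) + (1 - δ) = ((m : ℝ) - δ) + 1 := by ring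
        rw [this, Real.rpow_add hXp, Real.rpow_one]
      have h4 : ((F b).card : ℝ) * X ≤
          (C1 * 3 ^ m * C0 * ((X : ℝ) ^ (A * m) * (X : ℝ) ^ ((m : ℝ) - δ))) * X := by
        calc ((F b).card : ℝ) * X ≤ (C1 * (2 * (b * X) + 1) ^ m) * (C0 * (X : ℝ) ^ (1 - δ)) := h1
          _ ≤ (C1 * (3 * ((X : ℝ) ^ A * X)) ^ m) * (C0 * (X : ℝ) ^ (1 - δ)) := by
            apply mul_le_mul_of_nonneg_right
            · exact mul_le_mul_of_nonneg_left h2 (Nat.cast_nonneg C1)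
            · positivity
          _ = C1 * 3 ^ m * C0 * (X : ℝ) ^ (A * m) * ((X : ℝ) ^ m * (X : ℝ) ^ (1 - δ)) := by
            rw [mul_pow, mul_pow, ← pow_mul]
            ring
          _ = _ := by
            rw [h3]
            ring
      exact le_of_mul_le_mul_right h4 hXp
    refine hTle.trans ((Finset.sum_le_sum hFle).trans ?_)
    rw [Finset.sum_const, nsmul_eq_mul, Nat.card_Icc, Nat.add_sub_cancel]
    push_cast
    have h1 : (X : ℝ) ^ A * (C1 * 3 ^ m * C0 * ((X : ℝ) ^ (A * m) * (X : ℝ) ^ ((m : ℝ) - δ))) =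
        C1 * 3 ^ m * C0 * (X : ℝ) ^ ((m : ℝ) + A * (m + 1) - δ) := by
      have h2 : (X : ℝ) ^ ((m : ℝ) + A * (m + 1) - δ) =
          (X : ℝ) ^ A * ((X : ℝ) ^ (A * m) * (X : ℝ) ^ ((m : ℝ) - δ)) := by
        rw [← Real.rpow_natCast (X : ℝ) A, ← Real.rpow_natCast (X : ℝ) (A * m),
          ← Real.rpow_add hXp, ← Real.rpow_add hXp]
        congr 1
        push_cast
        ring
      rw [h2]
      ring
    rw [h1]
    refine mul_le_mul_of_nonneg_right ?_ (Real.rpow_nonneg hXp.le _)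
    refine mul_le_mul_of_nonneg_right ?_ (by linarith)
    have h2 : (0 : ℝ) ≤ C1 * 2 ^ m := by positivity
    linarith


end Pool.Agent.PSV.H88
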